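import Pool.Agent.Run7.h748.Cov.Gap

set_option autoImplicit false

/-!
# Lower bound for the entropy deficiency of Gaussian noise of small variance
-/

open MeasureTheory Set Filter
open scoped ENNReal Topology

namespace Run7.h748.Cov

noncomputable section

open Pool.Agent.H160R3.Herm (minSq hermite le_minSq minSq_le le_hermite minSq_nonneg)
open Pool.Agent.TH220.HG (minSq_pos gam)

variable {n : ℕ}

/-- the points of the lattice -/
def latSet (A : Matrix (Fin n) (Fin n) ℝ) : Set (EuclideanSpace ℝ (Fin n)) :=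
  Set.range fun z : Fin n → ℤ => WithLp.toLp 2 (A.mulVec fun i => (z i : ℝ))

/-- the distance to the lattice -/
def dd (A : Matrix (Fin n) (Fin n) ℝ) (x : Fin n → ℝ) : ℝ :=
  Metric.infDist (WithLp.toLp 2 x : EuclideanSpace ℝ (Fin n)) (latSet A)

theorem dd_cont (A : Matrix (Fin n) (Fin n) ℝ) : Continuous (dd A) := by
  unfold dd
  exact (Metric.continuous_infDist_pt _).comp (PiLp.continuous_toLp 2 _)

theorem dd_nonneg (A : Matrix (Fin n) (Fin n) ℝ) (x : Fin n → ℝ) : 0 ≤ dd A x :=
  Metric.infDist_nonneg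

theorem norm_sq' (x : Fin n → ℝ) : ‖(WithLp.toLp 2 x : EuclideanSpace ℝ (Fin n))‖ ^ 2 = sq x := by
  rw [EuclideanSpace.norm_sq_eq]
  simp [sq]

theorem zero_mem_lat (A : Matrix (Fin n) (Fin n) ℝ) : 0 ∈ latSet A := by
  refine ⟨0, ?_⟩
  have : (fun i => ((0 : Fin n → ℤ) i : ℝ)) = 0 := by ext i; simp
  simp only [this, Matrix.mulVec_zero]
  rfl

theorem dd_le (A : Matrix (Fin n) (Fin n) ℝ) (x : Fin n → ℝ) : dd A x ^ 2 ≤ sq x := by
  have h := Metric.infDist_le_dist_of_mem (x := (WithLp.toLp 2 x : EuclideanSpace ℝ (Fin n)))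
    (zero_mem_lat A)
  rw [dist_zero_right] at h
  rw [← norm_sq']
  exact pow_le_pow_left₀ (dd_nonneg A x) h 2

theorem dd_per (A : Matrix (Fin n) (Fin n) ℝ) : Periodic A (dd A) := by
  intro z x
  unfold dd
  have hiso : Isometry (fun y : EuclideanSpace ℝ (Fin n) =>
      y + WithLp.toLp 2 (A.mulVec fun i => (z i : ℝ))) := isometry_add_right _
  have h1 := Metric.infDist_image (x := (WithLp.toLp 2 x : EuclideanSpace ℝ (Fin n)))
    (t := latSet A) hiso
  have h2 : (fun y : EuclideanSpace ℝ (Fin n) =>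
      y + WithLp.toLp 2 (A.mulVec fun i => (z i : ℝ))) '' latSet A = latSet A := by
    ext y
    constructor
    · rintro ⟨_, ⟨u, rfl⟩, rfl⟩
      refine ⟨u + z, ?_⟩
      simp only []
      rw [← WithLp.toLp_add, ← Matrix.mulVec_add]
      congr 2
      ext i; simp
    · rintro ⟨u, rfl⟩
      refine ⟨WithLp.toLp 2 (A.mulVec fun i => ((u - z) i : ℝ)), ⟨u - z, rfl⟩, ?_⟩
      simp only []
      rw [← WithLp.toLp_add, ← Matrix.mulVec_add]
      congr 2
      ext i; simp
  rw [h2] at h1
  rw [WithLp.toLp_add]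
  exact h1

theorem dd_near (A : Matrix (Fin n) (Fin n) ℝ) (x : Fin n → ℝ) {ε : ℝ} (hε : 0 < ε) :
    ∃ z : Fin n → ℤ, sq (x - A.mulVec fun i => (z i : ℝ)) < (dd A x + ε) ^ 2 := by
  have h : Metric.infDist (WithLp.toLp 2 x : EuclideanSpace ℝ (Fin n)) (latSet A) < dd A x + ε := by
    unfold dd; linarith
  obtain ⟨_, ⟨z, rfl⟩, hz⟩ := (Metric.infDist_lt_iff ⟨0, zero_mem_lat A⟩).1 h
  refine ⟨z, ?_⟩
  rw [dist_eq_norm, ← WithLp.toLp_sub] at hz
  rw [← norm_sq']
  exact pow_lt_pow_left₀ hz (norm_nonneg _) two_ne_zero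

/-- the second moment -/
theorem second_moment {b : ℝ} (hb : 0 < b) :
    Integrable (fun x : Fin n → ℝ => sq x * G b x) ∧
      ∫ x : Fin n → ℝ, sq x * G b x ≤ n / (2 * b) * Z n b := by
  have hpt : ∀ s : ℝ, 0 < s → ∀ x : Fin n → ℝ, sq x * G b x ≤ (G (b - s) x - G b x) / s := by
    intro s hs x
    rw [le_div_iff₀ hs]
    have h1 := Real.add_one_le_exp (s * sq x)
    have h2 : G (b - s) x = Real.exp (s * sq x) * G b x := by
      unfold G
      rw [← Real.exp_add]; congr 1; ring
    rw [h2]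
    have h3 := G_pos b x
    nlinarith
  have hint : Integrable (fun x : Fin n → ℝ => sq x * G b x) := by
    have h1 : Integrable (fun x : Fin n → ℝ => (G (b - b / 2) x - G b x) / (b / 2)) :=
      ((G_int (by linarith)).sub (G_int hb)).div_const _
    refine h1.mono' (sq_cont.mul (G_cont b)).aestronglyMeasurable (ae_of_all _ fun x => ?_)
    rw [Real.norm_eq_abs, abs_of_nonneg (mul_nonneg (sq_nonneg' x) (G_pos b x).le)]
    exact hpt _ (by positivity) x
  refine ⟨hint, ?_⟩
  have hbound : ∀ s : ℝ, 0 < s → s < b → ∫ x : Fin n → ℝ, sq x * G b x ≤ (Z n (b - s) - Z n b) / s := by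
    intro s hs hsb
    have h1 : Integrable (fun x : Fin n → ℝ => (G (b - s) x - G b x) / s) :=
      ((G_int (by linarith)).sub (G_int hb)).div_const _
    have h2 := integral_mono hint h1 (hpt s hs)
    rwa [integral_div, integral_sub (G_int (by linarith)) (G_int hb), G_integral (by linarith),
      G_integral hb] at h2
  have hder : HasDerivAt (fun s : ℝ => Z n (b - s)) (n / (2 * b) * Z n b) 0 := by
    unfold Z
    have h1 : HasDerivAt (fun s : ℝ => Real.pi / (b - s)) (Real.pi / b ^ 2) 0 := by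
      have h2 : HasDerivAt (fun s : ℝ => b - s) (-1) 0 := by
        simpa using (hasDerivAt_id (0 : ℝ)).const_sub b
      have h3 : HasDerivAt (fun s : ℝ => Real.pi / (b - s))
          ((0 * (b - 0) - Real.pi * (-1)) / (b - 0) ^ 2) 0 :=
        (hasDerivAt_const (0 : ℝ) Real.pi).div h2 (by simpa using hb.ne')
      simpa using h3
    have h4 := h1.rpow_const (p := (n : ℝ) / 2) (Or.inl (by
      simp only [sub_zero]; positivity))
    convert h4 using 1
    simp only [sub_zero]
    rw [Real.rpow_sub_one (by positivity)]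
    field_simp
  have hslope := hder.tendsto_slope
  have hsub : (𝓝[>] (0 : ℝ)) ≤ 𝓝[≠] 0 :=
    nhdsWithin_mono _ (fun x hx => ne_of_gt hx)
  have hlim := hslope.mono_left hsub
  refine ge_of_tendsto hlim ?_
  have hev : ∀ᶠ s in 𝓝[>] (0 : ℝ), s < b := nhdsWithin_le_nhds (Iio_mem_nhds hb)
  filter_upwards [hev, self_mem_nhdsWithin] with s h1 h2
  have h3 := hbound s h2 h1
  rw [slope_def_field]
  simpa using h3

theorem cell_dd {A : Matrix (Fin n) (Fin n) ℝ} (hA : A.det ≠ 0) {b : ℝ} (hb : 0 < b) :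
    cellMean A (fun x => Real.exp (-b * dd A x ^ 2)) ≤ |A.det|⁻¹ * Z n b := by
  have hdetpos : 0 < |A.det| := abs_pos.2 hA
  have hZ := Z_pos (n := n) hb
  have hcont : Continuous fun t : Fin n → ℝ => Real.exp (-b * dd A (A.mulVec t) ^ 2) :=
    Real.continuous_exp.comp (continuous_const.mul (((dd_cont A).comp (mulVec_cont A)).pow 2))
  have hmeas : Measurable fun y : Fin n → ℝ => ENNReal.ofReal (G b y) :=
    (G_cont b).measurable.ennreal_ofReal
  have h4 : ∫⁻ t, ENNReal.ofReal (G b (A.mulVec t)) =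
      ENNReal.ofReal (|A.det|⁻¹ * Z n b) := by
    have h5 := Real.map_matrix_volume_pi_eq_smul_volume_pi hA
    have h6 : Measurable (Matrix.toLin' A : (Fin n → ℝ) → Fin n → ℝ) := by
      have : (Matrix.toLin' A : (Fin n → ℝ) → Fin n → ℝ) = fun t => A.mulVec t := by
        ext t; simp
      rw [this]
      exact (mulVec_cont A).measurable
    have h7 := lintegral_map (μ := volume) hmeas h6
    rw [h5, lintegral_smul_measure] at h7
    have e1 : ∫⁻ v : Fin n → ℝ, ENNReal.ofReal (G b v) = ENNReal.ofReal (Z n b) := by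
      rw [← ofReal_integral_eq_lintegral_ofReal (G_int hb) (ae_of_all _ fun v => (G_pos b v).le),
        G_integral hb]
    rw [ENNReal.ofReal_mul (by positivity), ← e1, ← abs_inv, ← smul_eq_mul, h7]
    simp
  have hpt : ∀ t : Fin n → ℝ, ENNReal.ofReal (Real.exp (-b * dd A (A.mulVec t) ^ 2)) ≤
      ∑' g : L0 n, ENNReal.ofReal (G b (A.mulVec (g +ᵥ t))) := by
    intro t
    have hε : ∀ ε : ℝ, 0 < ε → ENNReal.ofReal (Real.exp (-b * (dd A (A.mulVec t) + ε) ^ 2)) ≤
        ∑' g : L0 n, ENNReal.ofReal (G b (A.mulVec (g +ᵥ t))) := by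
      intro ε hε
      obtain ⟨z, hz⟩ := dd_near A (A.mulVec t) hε
      have hm : (fun i => -(z i : ℝ)) ∈ L0 n := (mem_L0' _).2 ⟨fun i => -z i, fun i => by simp⟩
      refine le_trans ?_ (ENNReal.le_tsum (⟨_, hm⟩ : L0 n))
      apply ENNReal.ofReal_le_ofReal
      unfold G
      apply Real.exp_le_exp.2
      have e1 : A.mulVec ((⟨_, hm⟩ : L0 n) +ᵥ t) = A.mulVec t - A.mulVec fun i => (z i : ℝ) := by
        rw [← Matrix.mulVec_sub]
        congr 1
        ext i
        change -(z i : ℝ) + t i = t i - z i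
        ring
      rw [e1]
      nlinarith
    have hlim : Tendsto (fun ε : ℝ => ENNReal.ofReal
        (Real.exp (-b * (dd A (A.mulVec t) + ε) ^ 2))) (𝓝[>] 0)
        (𝓝 (ENNReal.ofReal (Real.exp (-b * dd A (A.mulVec t) ^ 2)))) := by
      have hc : Continuous fun ε : ℝ => ENNReal.ofReal
          (Real.exp (-b * (dd A (A.mulVec t) + ε) ^ 2)) :=
        ENNReal.continuous_ofReal.comp (by fun_prop)
      have := hc.tendsto 0
      simp only [add_zero] at this
      exact this.mono_left nhdsWithin_le_nhds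
    refine le_of_tendsto hlim ?_
    filter_upwards [self_mem_nhdsWithin] with ε h
    exact hε ε h
  have hmeasA : Measurable fun t : Fin n → ℝ => ENNReal.ofReal (G b (A.mulVec t)) :=
    ((G_cont b).comp (mulVec_cont A)).measurable.ennreal_ofReal
  have key : ∫⁻ t in cube n, ENNReal.ofReal (Real.exp (-b * dd A (A.mulVec t) ^ 2)) ≤
      ENNReal.ofReal (|A.det|⁻¹ * Z n b) := by
    rw [← h4, cube_fd.lintegral_eq_tsum'' (fun t => ENNReal.ofReal (G b (A.mulVec t)))]
    rw [← lintegral_tsum]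
    · exact lintegral_mono hpt
    · intro g
      have : Measurable fun t : Fin n → ℝ => g +ᵥ t := by
        change Measurable fun t : Fin n → ℝ => (g : Fin n → ℝ) + t
        exact measurable_const_add _
      exact (hmeasA.comp this).aemeasurable
  have hint : IntegrableOn (fun t : Fin n → ℝ => Real.exp (-b * dd A (A.mulVec t) ^ 2)) (cube n) := by
    refine (integrableOn_const (C := (1 : ℝ)) (by rw [vol_cube]; exact ENNReal.one_ne_top)).mono'
      hcont.aestronglyMeasurable (ae_of_all _ fun t => ?_)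
    rw [Real.norm_eq_abs, abs_of_pos (Real.exp_pos _)]
    apply Real.exp_le_one_iff.2
    have := sq_nonneg (dd A (A.mulVec t))
    nlinarith
  rw [← ofReal_integral_eq_lintegral_ofReal hint (ae_of_all _ fun t => (Real.exp_pos _).le)] at key
  exact (ENNReal.ofReal_le_ofReal_iff (by positivity)).1 key

theorem sharp (hn : 0 < n) {A : Matrix (Fin n) (Fin n) ℝ} (hA : A.det ≠ 0) {v : ℝ} (hv : 0 < v) :
    ∃ f : (Fin n → ℝ) → ℝ, Continuous f ∧ Periodic A f ∧
      n / 2 * Real.log (n / (2 * Real.pi * Real.exp 1 * v * gam A)) ≤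
        gaussMean (v * minSq A / n) f - Real.log (cellMean A fun x => Real.exp (f x)) := by
  have hn0 : (0 : ℝ) < n := by exact_mod_cast hn
  have hm := minSq_pos hn hA
  have hd := abs_pos.2 hA
  set v' := v * minSq A / n with hv'
  have hv0 : 0 < v' := by positivity
  set b := 1 / (2 * v') with hb
  have hb0 : 0 < b := by positivity
  have hZ := Z_pos (n := n) hb0
  have hfc : Continuous fun x => -b * dd A x ^ 2 := continuous_const.mul ((dd_cont A).pow 2)
  have hfp : Periodic A fun x => -b * dd A x ^ 2 := by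
    intro z x
    simp only []
    rw [dd_per A z x]
  refine ⟨fun x => -b * dd A x ^ 2, hfc, hfp, ?_⟩
  obtain ⟨B, hB⟩ := bdd_of_periodic hA hfc hfp
  obtain ⟨hs1, hs2⟩ := second_moment (n := n) hb0
  have h1 : -(n : ℝ) / 2 ≤ gaussMean v' (fun x => -b * dd A x ^ 2) := by
    rw [← gm_eq hv0, ← hb]
    unfold gm
    have h2 : ∫ x : Fin n → ℝ, -b * (sq x * G b x) ≤ ∫ x, -b * dd A x ^ 2 * G b x := by
      apply integral_mono (hs1.const_mul _) (hB.int hb0)
      intro x
      simp only []
      have h3 := dd_le A x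
      have h4 := G_pos b x
      nlinarith [mul_le_mul_of_nonneg_right h3 h4.le]
    rw [integral_const_mul] at h2
    have h5 : -b * (n / (2 * b) * Z n b) ≤ -b * ∫ x : Fin n → ℝ, sq x * G b x := by
      nlinarith
    calc -(n : ℝ) / 2 = (Z n b)⁻¹ * (-b * (n / (2 * b) * Z n b)) := by field_simp
      _ ≤ (Z n b)⁻¹ * ∫ x, -b * dd A x ^ 2 * G b x :=
        mul_le_mul_of_nonneg_left (h5.trans h2) (inv_pos.2 hZ).le
  have h6 : Real.log (cellMean A fun x => Real.exp (-b * dd A x ^ 2)) ≤
      -Real.log |A.det| + n / 2 * Real.log (2 * Real.pi * v') := by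
    have h7 := Real.log_le_log (cellMean_pos hB) (cell_dd hA hb0)
    rw [Real.log_mul (by positivity) hZ.ne', Real.log_inv] at h7
    have h8 : Real.log (Z n b) = n / 2 * Real.log (2 * Real.pi * v') := by
      unfold Z
      rw [Real.log_rpow (by positivity)]
      congr 2
      rw [hb]; field_simp
    rwa [h8] at h7
  have h9 : n / 2 * Real.log (n / (2 * Real.pi * Real.exp 1 * v * gam A)) =
      -(n : ℝ) / 2 - (-Real.log |A.det| + n / 2 * Real.log (2 * Real.pi * v')) := by
    have e1 : n / (2 * Real.pi * Real.exp 1 * v * gam A) =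
        |A.det| ^ ((2 : ℝ) / n) / (Real.exp 1 * (2 * Real.pi * v')) := by
      unfold gam
      rw [hv']
      field_simp
    rw [e1, Real.log_div (by positivity) (by positivity), Real.log_mul (by positivity) (by positivity),
      Real.log_rpow hd, Real.log_exp]
    field_simp
    ring
  rw [h9]
  linarith

end

end Run7.h748.Cov
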