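import Pool.Agent.Run7.h748.Cov.Torus

set_option autoImplicit false

/-!
# Bases of the superlattice of `ℤⁿ` given by a finite subgroup of the torus
-/

open MeasureTheory Set Module

namespace Run7.h748.Cov

noncomputable section

variable {n : ℕ}

/-- the projection as a homomorphism -/
def prH (n : ℕ) : (Fin n → ℝ) →+ (Fin n → UnitAddCircle) where
  toFun := pr
  map_zero' := pr_zero
  map_add' := pr_add

theorem pr_eq_zero_iff (t : Fin n → ℝ) : pr t = 0 ↔ ∃ z : Fin n → ℤ, ∀ i, t i = z i := by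
  constructor
  · intro h
    have h1 : ∀ i, ∃ z : ℤ, t i = z := by
      intro i
      have h2 : ((t i : ℝ) : UnitAddCircle) = 0 := congrFun h i
      rw [AddCircle.coe_eq_zero_iff] at h2
      obtain ⟨z, hz⟩ := h2
      exact ⟨z, by rw [← hz]; simp⟩
    choose z hz using h1
    exact ⟨z, hz⟩
  · rintro ⟨z, hz⟩
    ext i
    change ((t i : ℝ) : UnitAddCircle) = 0
    rw [AddCircle.coe_eq_zero_iff]
    exact ⟨z i, by rw [hz]; simp⟩

/-- `ℤⁿ` -/
abbrev L0 (n : ℕ) : Submodule ℤ (Fin n → ℝ) := Submodule.span ℤ (Set.range (Pi.basisFun ℝ (Fin n)))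

theorem mem_L0 (t : Fin n → ℝ) : t ∈ L0 n ↔ pr t = 0 := by
  rw [pr_eq_zero_iff, L0, Basis.mem_span_iff_repr_mem]
  constructor
  · intro h
    choose z hz using h
    exact ⟨z, fun i => by rw [← Pi.basisFun_repr ℝ (Fin n) t i, ← hz i]; simp⟩
  · rintro ⟨z, hz⟩ i
    exact ⟨z i, by rw [Pi.basisFun_repr, hz i]; simp⟩

theorem exists_matrix (H : AddSubgroup (Fin n → UnitAddCircle))
    (hfin : (H : Set (Fin n → UnitAddCircle)).Finite) :
    ∃ (P : Matrix (Fin n) (Fin n) ℝ) (M : Matrix (Fin n) (Fin n) ℤ),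
      (∀ z : Fin n → ℤ, pr (P.mulVec fun i => (z i : ℝ)) ∈ H) ∧
      P * M.map (fun z : ℤ => (z : ℝ)) = 1 ∧ M.det.natAbs = Nat.card H := by
  classical
  set L1 : AddSubgroup (Fin n → ℝ) := H.comap (prH n) with hL1
  have mem1 : ∀ t, t ∈ L1 ↔ pr t ∈ H := fun t => Iff.rfl
  have hle : (L0 n).toAddSubgroup ≤ L1 := by
    intro t ht
    rw [mem1]
    have : t ∈ L0 n := ht
    rw [mem_L0] at this
    rw [this]; exact H.zero_mem
  have hfinH : Finite H := hfin.to_subtype
  -- exponent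
  have hm : ∀ h ∈ H, Nat.card H • h = 0 := by
    intro h hh
    have := card_nsmul_eq_zero' (x := (⟨h, hh⟩ : H))
    exact congrArg Subtype.val this
  have hc0 : (Nat.card H : ℝ) ≠ 0 := by
    exact_mod_cast (Nat.card_pos (α := H)).ne'
  let e : (Fin n → ℝ) →ₗ[ℝ] (Fin n → ℝ) := (Nat.card H : ℝ) • LinearMap.id
  have he1 : Continuous e := LinearMap.continuous_of_finiteDimensional e
  have he2 : Function.Injective e := by
    intro s t hst
    have : (Nat.card H : ℝ) • s = (Nat.card H : ℝ) • t := hst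
    exact smul_right_injective _ hc0 this
  have hd2 : DiscreteTopology (ZLattice.comap ℝ (L0 n) e) :=
    ZLattice.comap_discreteTopology ℝ (L0 n) he1 he2
  have hsub : ((L1.toIntSubmodule : Submodule ℤ (Fin n → ℝ)) : Set (Fin n → ℝ)) ⊆
      (ZLattice.comap ℝ (L0 n) e : Set (Fin n → ℝ)) := by
    intro t ht
    have h1 : pr t ∈ H := ht
    change e t ∈ L0 n
    rw [mem_L0]
    have : e t = (Nat.card H : ℝ) • t := rfl
    rw [this, pr_nsmul, hm _ h1]
  have hd1 : DiscreteTopology L1.toIntSubmodule := DiscreteTopology.of_subset hd2 hsub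
  have hz1 : IsZLattice ℝ L1.toIntSubmodule := by
    refine ⟨?_⟩
    rw [eq_top_iff, ← (IsZLattice.span_top (K := ℝ) (L := L0 n))]
    exact Submodule.span_mono hle
  let b1 := IsZLattice.basis L1.toIntSubmodule
  let b0 := (Pi.basisFun ℝ (Fin n)).restrictScalars ℤ
  have hb0 : ∀ j, ((b0 j : L0 n) : Fin n → ℝ) = Pi.single j 1 := by
    intro j
    change (((Pi.basisFun ℝ (Fin n)).restrictScalars ℤ j : L0 n) : Fin n → ℝ) = _
    rw [Basis.restrictScalars_apply, Pi.basisFun_apply]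
  have hidx := AddSubgroup.relIndex_eq_natAbs_det (L0 n).toAddSubgroup L1 hle b0 b1
  have hrel : (L0 n).toAddSubgroup.relIndex L1 = Nat.card H := by
    have h0 : (L0 n).toAddSubgroup = (⊥ : AddSubgroup (Fin n → UnitAddCircle)).comap (prH n) := by
      ext t
      change t ∈ L0 n ↔ pr t ∈ (⊥ : AddSubgroup (Fin n → UnitAddCircle))
      rw [mem_L0]; simp
    rw [h0, AddSubgroup.relIndex_comap, AddSubgroup.relIndex_bot_left, hL1,
      AddSubgroup.map_comap_eq_self_of_surjective (f := prH n) (fun x => pr_surj x)]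
  let M : Matrix (Fin n) (Fin n) ℤ := b1.toMatrix (fun i => ⟨b0 i, hle (SetLike.coe_mem _)⟩)
  let P : Matrix (Fin n) (Fin n) ℝ := Matrix.of fun i j => ((b1 j : L1.toIntSubmodule) : Fin n → ℝ) i
  refine ⟨P, M, ?_, ?_, ?_⟩
  · intro z
    have h1 : (P.mulVec fun i => (z i : ℝ)) =
        ((∑ j, z j • b1 j : L1.toIntSubmodule) : Fin n → ℝ) := by
      ext i
      simp only [Matrix.mulVec, dotProduct, P, Matrix.of_apply]
      rw [Submodule.coe_sum, Finset.sum_apply]
      refine Finset.sum_congr rfl fun j _ => ?_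
      simp [mul_comm]
    rw [h1]
    exact (∑ j, z j • b1 j : L1.toIntSubmodule).2
  · ext i j
    rw [Matrix.mul_apply, Matrix.one_apply]
    have h2 := b1.sum_repr (⟨b0 j, hle (SetLike.coe_mem _)⟩ : L1.toIntSubmodule)
    have h3 := congrArg (fun v : L1.toIntSubmodule => (v : Fin n → ℝ) i) h2
    simp only [] at h3
    rw [Submodule.coe_sum, Finset.sum_apply] at h3
    have h4 : ((b0 j : L0 n) : Fin n → ℝ) i = if i = j then 1 else 0 := by
      rw [hb0, Pi.single_apply]
    rw [← h4, ← h3]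
    refine Finset.sum_congr rfl fun k _ => ?_
    simp [P, M, Basis.toMatrix_apply, mul_comm]
  · rw [← hrel, hidx]
    rfl

end

end Run7.h748.Cov
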