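import Pool.Agent.Run7.h748.Cov.Basis

set_option autoImplicit false

/-!
# The unit cube as a fundamental domain of `ℤⁿ`
-/

open MeasureTheory Set Module
open scoped ENNReal Pointwise

namespace Run7.h748.Cov

noncomputable section

variable {n : ℕ}

/-- the half open unit cube -/
def cube (n : ℕ) : Set (Fin n → ℝ) := {t | ∀ i, 0 ≤ t i ∧ t i < 1}

theorem cube_eq : cube n = ZSpan.fundamentalDomain (Pi.basisFun ℝ (Fin n)) := by
  ext t
  simp [cube, ZSpan.mem_fundamentalDomain]

theorem cube_meas : MeasurableSet (cube n) := by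
  rw [cube_eq]; exact ZSpan.fundamentalDomain_measurableSet _

theorem cube_fd : IsAddFundamentalDomain (L0 n) (cube n) volume := by
  rw [cube_eq]; exact ZSpan.isAddFundamentalDomain _ _

theorem vol_cube : volume (cube n) = 1 := by
  rw [cube_eq, ZSpan.volume_fundamentalDomain]
  have : (Matrix.of ⇑(Pi.basisFun ℝ (Fin n))) = 1 := by
    ext i j
    simp [Matrix.one_apply, Pi.single_apply, eq_comm]
  rw [this]; simp

theorem mem_L0' (v : Fin n → ℝ) : v ∈ L0 n ↔ ∃ z : Fin n → ℤ, ∀ i, v i = z i := by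
  rw [mem_L0, pr_eq_zero_iff]

instance instInv : VAddInvariantMeasure (L0 n) (Fin n → ℝ) volume :=
  ⟨fun c s _ => measure_preimage_add volume (c : Fin n → ℝ) s⟩

/-- unfolding -/
theorem unfold_le (E : Set (Fin n → ℝ)) :
    volume {t | t ∈ cube n ∧ ∃ z : Fin n → ℤ, (fun i => t i - z i) ∈ E} ≤ volume E := by
  rw [cube_fd.measure_eq_tsum E]
  refine le_trans (measure_mono ?_) (measure_iUnion_le (fun g : L0 n => (g +ᵥ E) ∩ cube n))
  rintro t ⟨ht, z, hz⟩
  rw [Set.mem_iUnion]
  have hm : (fun i => (z i : ℝ)) ∈ L0 n := (mem_L0' _).2 ⟨z, fun _ => rfl⟩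
  refine ⟨⟨_, hm⟩, ?_, ht⟩
  rw [Set.mem_vadd_set]
  refine ⟨_, hz, ?_⟩
  ext i
  change (z i : ℝ) + (t i - z i) = t i
  ring

theorem cube_shift (s : Fin n → ℝ) :
    IsAddFundamentalDomain (L0 n) ((fun t => t - s) ⁻¹' cube n) volume := by
  have h := cube_fd (n := n)
  have hq : Measure.QuasiMeasurePreserving (fun t : Fin n → ℝ => t - s) volume volume :=
    (measurePreserving_sub_right volume s).quasiMeasurePreserving
  refine h.preimage_of_equiv hq (e := id) Function.bijective_id ?_
  intro g t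
  change ((g : Fin n → ℝ) + t) - s = (g : Fin n → ℝ) + (t - s)
  abel

theorem cell_shift (g : (Fin n → ℝ) → ℝ≥0∞)
    (hper : ∀ (z : Fin n → ℤ) (t : Fin n → ℝ), g (fun i => z i + t i) = g t) (s : Fin n → ℝ) :
    ∫⁻ t in cube n, g (t + s) = ∫⁻ t in cube n, g t := by
  have h1 := (cube_shift s).setLIntegral_eq cube_fd g (by
    intro v t
    obtain ⟨z, hz⟩ := (mem_L0' (v : Fin n → ℝ)).1 v.2
    rw [← hper z t]
    congr 1
    ext i
    change (v : Fin n → ℝ) i + t i = _
    rw [hz])
  rw [← h1]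
  have hms : MeasurableSet ((fun t : Fin n → ℝ => t - s) ⁻¹' cube n) :=
    (measurable_id.sub_const s) cube_meas
  rw [← lintegral_indicator cube_meas, ← lintegral_indicator hms,
    ← lintegral_add_right_eq_self (fun t => ((fun t => t - s) ⁻¹' cube n).indicator g t) s]
  congr 1
  ext t
  by_cases ht : t ∈ cube n
  · rw [indicator_of_mem ht, indicator_of_mem]
    simpa using ht
  · rw [indicator_of_notMem ht, indicator_of_notMem]
    simpa using ht

end

end Run7.h748.Cov
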