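import Pool.Agent.Run7.h748.Cov.Gauss1
import Pool.Agent.Helper481.RHPL

set_option autoImplicit false

/-!
# An inverse moment of a function smoothed by Gaussian noise

`Fs a ℓ` is the average of `exp ℓ` over Gaussian noise. The Prékopa-Leindler inequality bounds the
mean of `1 / Fs a ℓ` by `exp (- gm a ℓ)` with a Gaussian mean `gm a ℓ` of `ℓ`.
-/

open MeasureTheory Set
open scoped ENNReal

namespace Run7.h748.Cov

noncomputable section

variable {n : ℕ}

/-- bounded continuous function -/
structure Bdd (l : (Fin n → ℝ) → ℝ) (B : ℝ) : Prop where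
  cont : Continuous l
  le : ∀ x, |l x| ≤ B

/-- Gaussian average of `exp l` -/
def Fs (c : ℝ) (l : (Fin n → ℝ) → ℝ) (y : Fin n → ℝ) : ℝ :=
  (Z n c)⁻¹ * ∫ x, Real.exp (l (y + x)) * G c x

/-- Gaussian average of `l` -/
def ms (c : ℝ) (l : (Fin n → ℝ) → ℝ) (y : Fin n → ℝ) : ℝ :=
  (Z n c)⁻¹ * ∫ x, l (y + x) * G c x

/-- Gaussian mean of `l` -/
def gm (b : ℝ) (l : (Fin n → ℝ) → ℝ) : ℝ := (Z n b)⁻¹ * ∫ x, l x * G b x

variable {l : (Fin n → ℝ) → ℝ} {B : ℝ}

theorem Bdd.shift (h : Bdd l B) (y : Fin n → ℝ) : Bdd (fun x => l (y + x)) B :=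
  ⟨h.cont.comp (continuous_const.add continuous_id), fun _ => h.le _⟩

theorem Bdd.expB (h : Bdd l B) : Bdd (fun x => Real.exp (l x)) (Real.exp B) :=
  ⟨Real.continuous_exp.comp h.cont, fun x => by
    rw [abs_of_pos (Real.exp_pos _)]
    exact Real.exp_le_exp.2 ((le_abs_self _).trans (h.le x))⟩

theorem Bdd.smul (h : Bdd l B) (α : ℝ) : Bdd (fun x => α * l x) (|α| * B) :=
  ⟨continuous_const.mul h.cont, fun x => by
    rw [abs_mul]
    exact mul_le_mul_of_nonneg_left (h.le x) (abs_nonneg α)⟩

theorem Bdd.int (h : Bdd l B) {c : ℝ} (hc : 0 < c) : Integrable (fun x => l x * G c x) := by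
  refine ((G_int hc).const_mul B).mono' (h.cont.mul (G_cont c)).aestronglyMeasurable
    (ae_of_all _ fun x => ?_)
  rw [Real.norm_eq_abs, abs_mul, abs_of_pos (G_pos c x)]
  exact mul_le_mul_of_nonneg_right (h.le x) (G_pos c x).le

theorem Bdd.avg_cont (h : Bdd l B) {c : ℝ} (hc : 0 < c) :
    Continuous fun y => ∫ x, l (y + x) * G c x := by
  refine continuous_of_dominated (bound := fun x => B * G c x) ?_ ?_ ((G_int hc).const_mul B) ?_
  · intro y
    exact ((h.shift y).cont.mul (G_cont c)).aestronglyMeasurable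
  · intro y
    refine ae_of_all _ fun x => ?_
    rw [Real.norm_eq_abs, abs_mul, abs_of_pos (G_pos c x)]
    exact mul_le_mul_of_nonneg_right (h.le _) (G_pos c x).le
  · refine ae_of_all _ fun x => ?_
    exact (h.cont.comp (continuous_id.add continuous_const)).mul continuous_const

theorem ms_cont (h : Bdd l B) {c : ℝ} (hc : 0 < c) : Continuous (ms c l) :=
  continuous_const.mul (h.avg_cont hc)

theorem Fs_cont (h : Bdd l B) {c : ℝ} (hc : 0 < c) : Continuous (Fs c l) :=
  continuous_const.mul (h.expB.avg_cont hc)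

theorem ms_bdd (h : Bdd l B) {c : ℝ} (hc : 0 < c) : Bdd (ms c l) B := by
  refine ⟨ms_cont h hc, fun y => ?_⟩
  have hZ := Z_pos (n := n) hc
  unfold ms
  rw [abs_mul, abs_of_pos (inv_pos.2 hZ)]
  have h1 : |∫ x, l (y + x) * G c x| ≤ ∫ x : Fin n → ℝ, B * G c x := by
    have := norm_integral_le_of_norm_le (μ := volume) (f := fun x => l (y + x) * G c x)
      ((G_int (n := n) hc).const_mul B) (ae_of_all _ fun x => by
        rw [Real.norm_eq_abs, abs_mul, abs_of_pos (G_pos _ x)]
        exact mul_le_mul_of_nonneg_right (h.le _) (G_pos _ x).le)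
    rwa [Real.norm_eq_abs] at this
  rw [integral_const_mul, G_integral hc] at h1
  calc (Z n c)⁻¹ * |∫ x, l (y + x) * G c x|
      ≤ (Z n c)⁻¹ * (B * Z n c) := mul_le_mul_of_nonneg_left h1 (inv_pos.2 hZ).le
    _ = B := by field_simp

/-- variational inequality -/
theorem gibbs (h : Bdd l B) {c : ℝ} (hc0 : 0 < c) (y v : Fin n → ℝ) :
    Real.exp (ms c l v - c * sq (v - y)) ≤ Fs c l y := by
  set w := v - y with hw
  set m0 := ms c l v - c * sq w with hm0
  have hZ := Z_pos (n := n) hc0
  have e1 : ∫ x, Real.exp (l (y + x)) * G c x =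
      ∫ x, Real.exp (l (v + x) - 2 * c * ∑ i, w i * x i - c * sq w) * G c x := by
    rw [← integral_add_right_eq_self (fun x => Real.exp (l (y + x)) * G c x) w]
    congr 1
    ext x
    have : y + (x + w) = v + x := by rw [hw]; abel
    rw [this]
    unfold G
    rw [← Real.exp_add, ← Real.exp_add, sq_add]
    congr 1
    ring
  have i1 : Integrable (fun x => l (v + x) * G c x) := (h.shift v).int hc0
  have i2 : Integrable (fun x : Fin n → ℝ => (∑ i, w i * x i) * G c x) := lin_int hc0 w
  have i3 : Integrable (fun x : Fin n → ℝ => G c x) := G_int hc0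
  have i4 : Integrable (fun x => Real.exp (l (v + x) - 2 * c * ∑ i, w i * x i - c * sq w) * G c x) := by
    have := (G_lin hc0 ((-(2 * c)) • w)).const_mul (Real.exp (B + |c * sq w|))
    refine this.mono' ?_ (ae_of_all _ fun x => ?_)
    · refine Continuous.aestronglyMeasurable ?_
      refine Continuous.mul ?_ (G_cont c)
      refine Real.continuous_exp.comp ?_
      exact (((h.shift v).cont).sub (by fun_prop)).sub continuous_const
    · rw [Real.norm_eq_abs, abs_of_pos (mul_pos (Real.exp_pos _) (G_pos c x))]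
      rw [mul_comm (G c x), ← mul_assoc, ← Real.exp_add]
      apply mul_le_mul_of_nonneg_right _ (G_pos c x).le
      apply Real.exp_le_exp.2
      have h1 := (le_abs_self _).trans (h.le (v + x))
      have h2 := neg_abs_le (c * sq w)
      have h3 : ∑ i, ((-(2 * c)) • w) i * x i = -(2 * c) * ∑ i, w i * x i := by
        rw [Finset.mul_sum]
        refine Finset.sum_congr rfl fun i _ => ?_
        simp only [Pi.smul_apply, smul_eq_mul]; ring
      rw [h3]
      linarith
  have i5 : Integrable (fun x => Real.exp m0 * ((l (v + x) * G c x -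
      2 * c * ((∑ i, w i * x i) * G c x)) + (1 - m0 - c * sq w) * G c x)) :=
    ((i1.sub (i2.const_mul (2 * c))).add (i3.const_mul (1 - m0 - c * sq w))).const_mul _
  have i6 : Integrable (fun x => l (v + x) * G c x - 2 * c * ((∑ i, w i * x i) * G c x)) :=
    i1.sub (i2.const_mul (2 * c))
  have key : Real.exp m0 * Z n c ≤ ∫ x, Real.exp (l (y + x)) * G c x := by
    rw [e1]
    calc Real.exp m0 * Z n c = ∫ x, Real.exp m0 * ((l (v + x) * G c x -
          2 * c * ((∑ i, w i * x i) * G c x)) + (1 - m0 - c * sq w) * G c x) := by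
          rw [integral_const_mul, integral_add i6
            (i3.const_mul (1 - m0 - c * sq w)), integral_sub i1 (i2.const_mul (2 * c)),
            integral_const_mul, integral_const_mul, lin_zero, G_integral hc0]
          have : ∫ x, l (v + x) * G c x = Z n c * ms c l v := by
            unfold ms
            field_simp
          rw [this, hm0]
          ring
      _ ≤ _ := by
          apply integral_mono i5 i4
          intro x
          simp only []
          have h1 := Real.add_one_le_exp
            ((l (v + x) - 2 * c * ∑ i, w i * x i - c * sq w) - m0)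
          have h2 : Real.exp (l (v + x) - 2 * c * ∑ i, w i * x i - c * sq w) =
              Real.exp m0 * Real.exp ((l (v + x) - 2 * c * ∑ i, w i * x i - c * sq w) - m0) := by
            rw [← Real.exp_add]; congr 1; ring
          rw [h2]
          have h3 : 0 < Real.exp m0 * G c x := mul_pos (Real.exp_pos _) (G_pos c x)
          nlinarith
  unfold Fs
  calc Real.exp m0 = (Z n c)⁻¹ * (Real.exp m0 * Z n c) := by field_simp
    _ ≤ _ := mul_le_mul_of_nonneg_left key (inv_pos.2 hZ).le

theorem Fs_pos (h : Bdd l B) {c : ℝ} (hc : 0 < c) (y : Fin n → ℝ) : 0 < Fs c l y :=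
  (Real.exp_pos _).trans_le (gibbs h hc y y)

/-- Fubini -/
theorem ms_mean (h : Bdd l B) {a c : ℝ} (ha : 0 < a) (hc0 : 0 < c) :
    (Z n a)⁻¹ * ∫ v, ms c l v * G a v = gm (a * c / (a + c)) l := by
  have hZ := Z_pos (n := n) ha
  have hZ2 := Z_pos (n := n) hc0
  have hZ3 := Z_pos (n := n) (by positivity : 0 < a * c / (a + c))
  have hZ4 := Z_pos (n := n) (by positivity : 0 < a + c)
  have hconv : Integrable (fun p : (Fin n → ℝ) × (Fin n → ℝ) => G a p.2 * G c (p.1 - p.2))
      (volume.prod volume) :=
    Integrable.convolution_integrand (ContinuousLinearMap.mul ℝ ℝ) (G_int ha) (G_int hc0)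
  have hprod : Integrable (fun p : (Fin n → ℝ) × (Fin n → ℝ) =>
      l p.1 * (G a p.2 * G c (p.1 - p.2))) (volume.prod volume) := by
    refine (hconv.const_mul B).mono' ?_ (ae_of_all _ fun p => ?_)
    · refine Continuous.aestronglyMeasurable ?_
      exact (h.cont.comp continuous_fst).mul (((G_cont a).comp continuous_snd).mul
        ((G_cont c).comp (continuous_fst.sub continuous_snd)))
    · rw [Real.norm_eq_abs, abs_mul, abs_of_pos (mul_pos (G_pos _ _) (G_pos _ _))]
      exact mul_le_mul_of_nonneg_right (h.le _) (mul_pos (G_pos _ _) (G_pos _ _)).le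
  have e1 : ∀ v, ms c l v * G a v = (Z n c)⁻¹ * ∫ x, l x * (G a v * G c (x - v)) := by
    intro v
    unfold ms
    rw [← integral_sub_right_eq_self (fun x => l (v + x) * G c x) v, mul_assoc]
    congr 1
    rw [← integral_mul_const]
    congr 1
    ext x
    have : v + (x - v) = x := by abel
    rw [this]; ring
  simp_rw [e1]
  rw [integral_const_mul]
  have hswap : ∫ v, ∫ x, l x * (G a v * G c (x - v)) =
      ∫ x, ∫ v, l x * (G a v * G c (x - v)) := by
    have := integral_integral_swap (f := fun x v => l x * (G a v * G c (x - v))) hprod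
    exact this.symm
  rw [hswap]
  have e2 : ∀ x, ∫ v, l x * (G a v * G c (x - v)) =
      Z n (a + c) * (l x * G (a * c / (a + c)) x) := by
    intro x
    rw [integral_const_mul, G_conv ha hc0]; ring
  simp_rw [e2]
  rw [integral_const_mul]
  unfold gm
  have hZm := Z_mul (n := n) ha hc0
  have : (Z n a)⁻¹ * ((Z n c)⁻¹ * (Z n (a + c) * ∫ x, l x * G (a * c / (a + c)) x)) =
      (Z n a * Z n c)⁻¹ * Z n (a + c) * ∫ x, l x * G (a * c / (a + c)) x := by
    rw [mul_inv]; ring
  rw [this, hZm, mul_inv]
  field_simp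

theorem G_mul (a : ℝ) (s t : Fin n → ℝ) : G a s * G a t =
    G a (fun i => (s i + t i) / 2) ^ 2 * Real.exp (-(a / 2) * sq (s - t)) := by
  unfold G
  rw [← Real.exp_nat_mul, ← Real.exp_add, ← Real.exp_add]
  congr 1
  unfold sq
  push_cast
  rw [Finset.mul_sum, Finset.mul_sum, Finset.mul_sum, Finset.mul_sum, Finset.mul_sum,
    ← Finset.sum_add_distrib, ← Finset.sum_add_distrib]
  refine Finset.sum_congr rfl fun i _ => ?_
  simp only [Pi.sub_apply]
  ring

/-- the negative moment -/
theorem inv_moment (h : Bdd l B) {a c α : ℝ} (ha : 0 < a) (hc : 0 < c) (hα : 0 ≤ α)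
    (hac : α * c = a / 2) :
    ∫⁻ u, ENNReal.ofReal (G a u * (Fs c l u) ^ (-α)) ≤
      ENNReal.ofReal (Z n a * Real.exp (-(α * gm (a * c / (a + c)) l))) := by
  have hZ := Z_pos (n := n) ha
  have hm1 : Measurable fun u => ENNReal.ofReal (G a u * (Fs c l u) ^ (-α)) :=
    ((G_cont a).mul ((Fs_cont h hc).rpow_const
      fun u => Or.inl (Fs_pos h hc u).ne')).measurable.ennreal_ofReal
  have hm2 : Measurable fun v => ENNReal.ofReal (G a v * Real.exp (α * ms c l v)) :=
    ((G_cont a).mul (Real.continuous_exp.comp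
      (continuous_const.mul (ms_cont h hc)))).measurable.ennreal_ofReal
  have hm3 : Measurable fun v : Fin n → ℝ => ENNReal.ofReal (G a v) :=
    (G_cont a).measurable.ennreal_ofReal
  have key := Pool.Agent.Helper481.RHPL.pln n _ _ _ hm1 hm2 hm3 (by
    intro s t
    have hF := Fs_pos h hc s
    have hFa : 0 < (Fs c l s) ^ (-α) := Real.rpow_pos_of_pos hF _
    rw [← ENNReal.ofReal_mul (mul_pos (G_pos a s) hFa).le,
      ← ENNReal.ofReal_pow (G_pos a _).le]
    apply ENNReal.ofReal_le_ofReal
    have h1 := gibbs h hc s t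
    have h2 : G a s * (Fs c l s) ^ (-α) * (G a t * Real.exp (α * ms c l t)) =
        G a (fun i => (s i + t i) / 2) ^ 2 *
          (Real.exp (-(a / 2) * sq (s - t)) * Real.exp (α * ms c l t) * (Fs c l s) ^ (-α)) := by
      have := G_mul a s t
      calc _ = (G a s * G a t) * Real.exp (α * ms c l t) * (Fs c l s) ^ (-α) := by ring
        _ = _ := by rw [this]; ring
    rw [h2]
    have h3 : Real.exp (-(a / 2) * sq (s - t)) * Real.exp (α * ms c l t) * (Fs c l s) ^ (-α) ≤ 1 := by
      rw [Real.rpow_neg hF.le, ← div_eq_mul_inv, div_le_one (Real.rpow_pos_of_pos hF _),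
        ← Real.exp_add]
      have h4 := Real.rpow_le_rpow (Real.exp_pos _).le h1 hα
      rw [← Real.exp_mul] at h4
      refine le_trans (Real.exp_le_exp.2 (le_of_eq ?_)) h4
      have : sq (s - t) = sq (t - s) := by
        unfold sq
        refine Finset.sum_congr rfl fun i _ => ?_
        simp only [Pi.sub_apply]; ring
      rw [this, ← hac]; ring
    calc _ ≤ G a (fun i => (s i + t i) / 2) ^ 2 * 1 :=
          mul_le_mul_of_nonneg_left h3 (sq_nonneg _)
      _ = _ := mul_one _)
  have e1 : ∫⁻ v : Fin n → ℝ, ENNReal.ofReal (G a v) = ENNReal.ofReal (Z n a) := by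
    rw [← ofReal_integral_eq_lintegral_ofReal (G_int ha) (ae_of_all _ fun v => (G_pos a v).le),
      G_integral ha]
  have hmb := (ms_bdd h hc).smul α
  have i1 : Integrable (fun v => Real.exp (α * ms c l v) * G a v) := hmb.expB.int ha
  have i2 : Integrable (fun v => α * ms c l v * G a v) := hmb.int ha
  set g := gm (a * c / (a + c)) l with hg
  have e2 : ENNReal.ofReal (Z n a * Real.exp (α * g)) ≤
      ∫⁻ v, ENNReal.ofReal (G a v * Real.exp (α * ms c l v)) := by
    have i1' : Integrable (fun v => G a v * Real.exp (α * ms c l v)) := by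
      simpa [mul_comm] using i1
    rw [← ofReal_integral_eq_lintegral_ofReal i1'
      (ae_of_all _ fun v => (mul_pos (G_pos a v) (Real.exp_pos _)).le)]
    apply ENNReal.ofReal_le_ofReal
    have hgm : ∫ v, α * ms c l v * G a v = Z n a * (α * g) := by
      simp_rw [mul_assoc]
      rw [integral_const_mul, hg, ← ms_mean h ha hc]; field_simp
    calc Z n a * Real.exp (α * g) =
          ∫ v, Real.exp (α * g) * (α * ms c l v * G a v + (1 - α * g) * G a v) := by
          rw [integral_const_mul, integral_add i2 ((G_int ha).const_mul _), integral_const_mul,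
            hgm, G_integral ha]
          ring
      _ ≤ ∫ v, G a v * Real.exp (α * ms c l v) := by
          apply integral_mono ((i2.add ((G_int ha).const_mul _)).const_mul _) i1'
          intro v
          simp only [Pi.add_apply]
          have h1 := Real.add_one_le_exp (α * ms c l v - α * g)
          have h2 : Real.exp (α * ms c l v) =
              Real.exp (α * g) * Real.exp (α * ms c l v - α * g) := by
            rw [← Real.exp_add]; congr 1; ring
          rw [h2]
          have h3 : 0 < Real.exp (α * g) * G a v := mul_pos (Real.exp_pos _) (G_pos a v)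
          nlinarith
  rw [e1] at key
  have h4 : (∫⁻ u, ENNReal.ofReal (G a u * (Fs c l u) ^ (-α))) *
      ENNReal.ofReal (Z n a * Real.exp (α * g)) ≤
      ENNReal.ofReal (Z n a) ^ 2 := le_trans (by gcongr) key
  have h5 : ENNReal.ofReal (Z n a * Real.exp (-(α * g))) *
      ENNReal.ofReal (Z n a * Real.exp (α * g)) = ENNReal.ofReal (Z n a) ^ 2 := by
    rw [← ENNReal.ofReal_mul (by positivity), ← ENNReal.ofReal_pow hZ.le]
    congr 1
    rw [Real.exp_neg]
    field_simp
  rw [← h5] at h4
  have h6 : ENNReal.ofReal (Z n a * Real.exp (α * g)) ≠ 0 := by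
    rw [Ne, ENNReal.ofReal_eq_zero, not_le]; positivity
  exact (ENNReal.mul_le_mul_iff_left h6 ENNReal.ofReal_ne_top).1 h4

end

end Run7.h748.Cov
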