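import Pool.Agent.Run7.h748.Cov.Super
import Pool.Agent.Run7.h748.Cov.Gauss2
import Pool.Agent.Run7.h748.Cov.Cell

set_option autoImplicit false

/-!
# The covered fraction and Gaussian means of periodic functions
-/

open MeasureTheory Set
open scoped ENNReal

namespace Run7.h748.Cov

noncomputable section

variable {n : ℕ}

/-- the mean of `f` over the fundamental parallelepiped of the lattice `A ℤⁿ` -/
def cellMean (A : Matrix (Fin n) (Fin n) ℝ) (f : (Fin n → ℝ) → ℝ) : ℝ :=
  ∫ t in {t : Fin n → ℝ | ∀ i, 0 ≤ t i ∧ t i < 1}, f (A.mulVec t)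

/-- `f` is invariant under the translations by the points of the lattice `A ℤⁿ` -/
def Periodic (A : Matrix (Fin n) (Fin n) ℝ) (f : (Fin n → ℝ) → ℝ) : Prop :=
  ∀ (z : Fin n → ℤ) (x : Fin n → ℝ), f (x + A.mulVec fun i => (z i : ℝ)) = f x

variable {A : Matrix (Fin n) (Fin n) ℝ} {l : (Fin n → ℝ) → ℝ} {B : ℝ}

theorem Fs_per (hper : Periodic A l) (c : ℝ) (z : Fin n → ℤ) (y : Fin n → ℝ) :
    Fs c l (y + A.mulVec fun i => (z i : ℝ)) = Fs c l y := by
  unfold Fs
  congr 2
  ext x
  have : y + (A.mulVec fun i => (z i : ℝ)) + x = (y + x) + A.mulVec fun i => (z i : ℝ) := by abel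
  rw [this, hper]

theorem mulVec_cont (A : Matrix (Fin n) (Fin n) ℝ) : Continuous fun t : Fin n → ℝ => A.mulVec t := by
  fun_prop

theorem cellMean_pos (h : Bdd l B) : 0 < cellMean A (fun x => Real.exp (l x)) := by
  unfold cellMean
  have h1 : IntegrableOn (fun _ : Fin n → ℝ => Real.exp (-B)) (cube n) :=
    integrableOn_const (by rw [vol_cube]; exact ENNReal.one_ne_top)
  have h2 : IntegrableOn (fun t : Fin n → ℝ => Real.exp (l (A.mulVec t))) (cube n) := by
    refine (integrableOn_const (C := Real.exp B) (by rw [vol_cube]; exact ENNReal.one_ne_top)).mono' ?_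
      (ae_of_all _ fun t => ?_)
    · exact (Real.continuous_exp.comp (h.cont.comp (mulVec_cont A))).aestronglyMeasurable
    · rw [Real.norm_eq_abs, abs_of_pos (Real.exp_pos _)]
      exact Real.exp_le_exp.2 ((le_abs_self _).trans (h.le _))
  have h3 := setIntegral_mono (μ := volume) h1 h2 (fun t =>
    Real.exp_le_exp.2 ((neg_le_neg (h.le (A.mulVec t))).trans (neg_abs_le _)))
  have h4 : ∫ _ in cube n, Real.exp (-B) = Real.exp (-B) := by
    rw [setIntegral_const, measureReal_def, vol_cube]; simp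
  rw [h4] at h3
  exact (Real.exp_pos _).trans_le h3

theorem cell_lint (h : Bdd l B) : ∫⁻ t in cube n, ENNReal.ofReal (Real.exp (l (A.mulVec t))) =
    ENNReal.ofReal (cellMean A fun x => Real.exp (l x)) := by
  have h2 : IntegrableOn (fun t : Fin n → ℝ => Real.exp (l (A.mulVec t))) (cube n) := by
    refine (integrableOn_const (C := Real.exp B) (by rw [vol_cube]; exact ENNReal.one_ne_top)).mono' ?_
      (ae_of_all _ fun t => ?_)
    · exact (Real.continuous_exp.comp (h.cont.comp (mulVec_cont A))).aestronglyMeasurable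
    · rw [Real.norm_eq_abs, abs_of_pos (Real.exp_pos _)]
      exact Real.exp_le_exp.2 ((le_abs_self _).trans (h.le _))
  rw [← ofReal_integral_eq_lintegral_ofReal h2 (ae_of_all _ fun t => (Real.exp_pos _).le)]
  rfl

theorem cell_Fs (hA : A.det ≠ 0) (h : Bdd l B) (hper : Periodic A l) {c : ℝ} (hc0 : 0 < c) :
    ∫⁻ t in cube n, ENNReal.ofReal (Fs c l (A.mulVec t)) =
      ENNReal.ofReal (cellMean A fun x => Real.exp (l x)) := by
  have hZ := Z_pos (n := n) hc0
  have e1 : ∀ t : Fin n → ℝ, ENNReal.ofReal (Fs c l (A.mulVec t)) =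
      ENNReal.ofReal (Z n c)⁻¹ *
        ∫⁻ x, ENNReal.ofReal (Real.exp (l (A.mulVec t + x)) * G c x) := by
    intro t
    unfold Fs
    rw [ENNReal.ofReal_mul (inv_pos.2 hZ).le, ofReal_integral_eq_lintegral_ofReal
      ((h.shift (A.mulVec t)).expB.int hc0)
      (ae_of_all _ fun x => (mul_pos (Real.exp_pos _) (G_pos _ x)).le)]
  simp_rw [e1]
  have hcont : Continuous fun p : (Fin n → ℝ) × (Fin n → ℝ) =>
      Real.exp (l (A.mulVec p.1 + p.2)) * G c p.2 := by
    refine Continuous.mul (Real.continuous_exp.comp (h.cont.comp ?_)) ((G_cont _).comp continuous_snd)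
    exact ((mulVec_cont A).comp continuous_fst).add continuous_snd
  rw [lintegral_const_mul' _ _ ENNReal.ofReal_ne_top,
    lintegral_lintegral_swap hcont.measurable.ennreal_ofReal.aemeasurable]
  have hdet : IsUnit A.det := isUnit_iff_ne_zero.mpr hA
  have e2 : ∀ x : Fin n → ℝ,
      ∫⁻ t in cube n, ENNReal.ofReal (Real.exp (l (A.mulVec t + x)) * G c x) =
      ENNReal.ofReal (cellMean A fun x => Real.exp (l x)) * ENNReal.ofReal (G c x) := by
    intro x
    have e3 : ∀ t : Fin n → ℝ, ENNReal.ofReal (Real.exp (l (A.mulVec t + x)) * G c x) =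
        ENNReal.ofReal (Real.exp (l (A.mulVec (t + A⁻¹.mulVec x)))) *
          ENNReal.ofReal (G c x) := by
      intro t
      rw [Matrix.mulVec_add, Matrix.mulVec_mulVec, Matrix.mul_nonsing_inv _ hdet,
        Matrix.one_mulVec, ENNReal.ofReal_mul (Real.exp_pos _).le]
    simp_rw [e3]
    rw [lintegral_mul_const' _ _ ENNReal.ofReal_ne_top,
      cell_shift (fun t => ENNReal.ofReal (Real.exp (l (A.mulVec t)))), cell_lint h]
    intro z t
    have : (fun i => (z i : ℝ) + t i) = t + fun i => (z i : ℝ) := by ext i; simp [add_comm]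
    simp only [this]
    rw [Matrix.mulVec_add, hper]
  simp_rw [e2]
  rw [lintegral_const_mul' _ _ ENNReal.ofReal_ne_top,
    ← ofReal_integral_eq_lintegral_ofReal (G_int hc0) (ae_of_all _ fun x => (G_pos _ x).le),
    G_integral hc0, mul_left_comm, ← ENNReal.ofReal_mul (inv_pos.2 hZ).le,
    inv_mul_cancel₀ hZ.ne', ENNReal.ofReal_one, mul_one]

theorem N_sq_eq (A : Matrix (Fin n) (Fin n) ℝ) (t : Fin n → ℝ) : N A t ^ 2 = sq (A.mulVec t) :=
  N_sq A t

theorem comb (hA : A.det ≠ 0) (h : Bdd l B) (hper : Periodic A l) {ρ a c α : ℝ}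
    (ha : 0 < a) (hc : 0 < c) (hα : 0 ≤ α) (hac : α * c = a / 2) (θ : ℝ) :
    covered A ρ ≤ Real.exp (-θ) * cellMean A (fun x => Real.exp (l x)) +
      |A.det|⁻¹ * (Real.exp (α * θ + a * ρ ^ 2) *
        (Z n a * Real.exp (-(α * gm (a * c / (a + c)) l)))) := by
  have hF := Fs_pos h hc
  set F := Fs c l with hFdef
  have hFc : Continuous F := Fs_cont h hc
  set g := gm (a * c / (a + c)) l with hg
  set S1 : Set (Fin n → ℝ) := {t | t ∈ cube n ∧ Real.exp θ ≤ F (A.mulVec t)} with hS1
  set E : Set (Fin n → ℝ) := {t | N A t < ρ ∧ F (A.mulVec t) < Real.exp θ} with hE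
  have hsub : {t : Fin n → ℝ | (∀ i, 0 ≤ t i ∧ t i < 1) ∧
      ∃ z : Fin n → ℤ, √(∑ i, (A.mulVec fun j => t j - z j) i ^ 2) < ρ} ⊆
      S1 ∪ {t | t ∈ cube n ∧ ∃ z : Fin n → ℤ, (fun i => t i - z i) ∈ E} := by
    rintro t ⟨ht, z, hz⟩
    by_cases h1 : Real.exp θ ≤ F (A.mulVec t)
    · exact Or.inl ⟨ht, h1⟩
    · refine Or.inr ⟨ht, z, ?_, ?_⟩
      · rw [N_eq_sqrt]; exact hz
      · have h2 := Fs_per hper c z (A.mulVec fun i => t i - z i)
        rw [← Matrix.mulVec_add] at h2
        have h3 : ((fun i => t i - (z i : ℝ)) + fun i => (z i : ℝ)) = t := by ext i; simp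
        rw [h3] at h2
        rw [hFdef, ← h2]
        exact not_le.1 h1
  have hS1m : volume S1 ≤ ENNReal.ofReal (Real.exp (-θ) * cellMean A (fun x => Real.exp (l x))) := by
    have hmeas : Measurable fun t : Fin n → ℝ => ENNReal.ofReal (F (A.mulVec t)) :=
      (hFc.comp (mulVec_cont A)).measurable.ennreal_ofReal
    have h1 := mul_meas_ge_le_lintegral (μ := volume.restrict (cube n)) hmeas
      (ENNReal.ofReal (Real.exp θ))
    rw [cell_Fs hA h hper hc] at h1
    have h2 : (volume.restrict (cube n)) {t | ENNReal.ofReal (Real.exp θ) ≤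
        ENNReal.ofReal (F (A.mulVec t))} = volume S1 := by
      rw [Measure.restrict_apply (measurableSet_le measurable_const hmeas)]
      congr 1
      ext t
      simp only [Set.mem_inter_iff, Set.mem_ofPred_eq, hS1,
        ENNReal.ofReal_le_ofReal_iff (hF (A.mulVec t)).le]
      exact and_comm
    rw [h2] at h1
    have h3 : volume S1 = ENNReal.ofReal (Real.exp (-θ)) * (ENNReal.ofReal (Real.exp θ) * volume S1) := by
      rw [← mul_assoc, ← ENNReal.ofReal_mul (Real.exp_pos _).le, ← Real.exp_add]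
      simp
    rw [h3, ENNReal.ofReal_mul (Real.exp_pos _).le]
    gcongr
  have hEm : volume E ≤ ENNReal.ofReal (|A.det|⁻¹ *
      (Real.exp (α * θ + a * ρ ^ 2) * (Z n a * Real.exp (-(α * g))))) := by
    have hmeas : Measurable fun y : Fin n → ℝ => ENNReal.ofReal (G a y * (F y) ^ (-α)) :=
      ((G_cont a).mul (hFc.rpow_const
        fun u => Or.inl (hF u).ne')).measurable.ennreal_ofReal
    have hEmeas : MeasurableSet E := by
      apply MeasurableSet.inter
      · exact measurableSet_lt (N_cont A).measurable measurable_const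
      · exact measurableSet_lt (hFc.comp (mulVec_cont A)).measurable measurable_const
    have h1 : volume E ≤ ∫⁻ t, ENNReal.ofReal (Real.exp (α * θ + a * ρ ^ 2)) *
        ENNReal.ofReal (G a (A.mulVec t) * (F (A.mulVec t)) ^ (-α)) := by
      rw [← lintegral_indicator_one hEmeas]
      apply lintegral_mono
      intro t
      simp only []
      by_cases ht : t ∈ E
      · rw [indicator_of_mem ht, Pi.one_apply, ← ENNReal.ofReal_mul (Real.exp_pos _).le,
          ← ENNReal.ofReal_one]
        apply ENNReal.ofReal_le_ofReal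
        have h2 : 0 ≤ N A t := N_nonneg A t
        have h3 : N A t ^ 2 ≤ ρ ^ 2 := pow_le_pow_left₀ h2 ht.1.le 2
        rw [N_sq_eq] at h3
        have hFt := hF (A.mulVec t)
        have h5 := Real.rpow_le_rpow hFt.le ht.2.le hα
        rw [← Real.exp_mul] at h5
        have hp : 0 < (F (A.mulVec t)) ^ α := Real.rpow_pos_of_pos hFt _
        rw [Real.rpow_neg hFt.le, ← div_eq_mul_inv, mul_div_assoc', le_div_iff₀ hp, one_mul]
        refine h5.trans ?_
        unfold G
        rw [← Real.exp_add]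
        apply Real.exp_le_exp.2
        nlinarith
      · rw [indicator_of_notMem ht]
        exact zero_le
    refine h1.trans ?_
    rw [lintegral_const_mul' _ _ ENNReal.ofReal_ne_top]
    have h4 : ∫⁻ t, ENNReal.ofReal (G a (A.mulVec t) * (F (A.mulVec t)) ^ (-α)) =
        ENNReal.ofReal |A.det|⁻¹ * ∫⁻ y, ENNReal.ofReal (G a y * (F y) ^ (-α)) := by
      have h5 := Real.map_matrix_volume_pi_eq_smul_volume_pi hA
      have h6 : Measurable (Matrix.toLin' A : (Fin n → ℝ) → Fin n → ℝ) := by
        have : (Matrix.toLin' A : (Fin n → ℝ) → Fin n → ℝ) = fun t => A.mulVec t := by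
          ext t; simp
        rw [this]
        exact (mulVec_cont A).measurable
      have h7 := lintegral_map (μ := volume) hmeas h6
      rw [h5, lintegral_smul_measure] at h7
      rw [← abs_inv, ← smul_eq_mul, h7]
      simp
    rw [h4]
    calc ENNReal.ofReal (Real.exp (α * θ + a * ρ ^ 2)) *
          (ENNReal.ofReal |A.det|⁻¹ * ∫⁻ y, ENNReal.ofReal (G a y * (F y) ^ (-α)))
        ≤ ENNReal.ofReal (Real.exp (α * θ + a * ρ ^ 2)) *
          (ENNReal.ofReal |A.det|⁻¹ * ENNReal.ofReal (Z n a * Real.exp (-(α * g)))) := by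
          gcongr
          exact inv_moment h ha hc hα hac
      _ = _ := by
          rw [← ENNReal.ofReal_mul (by positivity), ← ENNReal.ofReal_mul (by positivity)]
          congr 1
          ring
  have hc1 : 0 ≤ Real.exp (-θ) * cellMean A (fun x => Real.exp (l x)) :=
    mul_nonneg (Real.exp_pos _).le (cellMean_pos h).le
  have hc2 : 0 ≤ |A.det|⁻¹ * (Real.exp (α * θ + a * ρ ^ 2) * (Z n a * Real.exp (-(α * g)))) := by
    have := Z_pos (n := n) ha
    positivity
  unfold covered
  rw [measureReal_def]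
  have htot : volume {t : Fin n → ℝ | (∀ i, 0 ≤ t i ∧ t i < 1) ∧
      ∃ z : Fin n → ℤ, √(∑ i, (A.mulVec fun j => t j - z j) i ^ 2) < ρ} ≤
      ENNReal.ofReal (Real.exp (-θ) * cellMean A (fun x => Real.exp (l x)) +
      |A.det|⁻¹ * (Real.exp (α * θ + a * ρ ^ 2) * (Z n a * Real.exp (-(α * g))))) := by
    rw [ENNReal.ofReal_add hc1 hc2]
    refine (measure_mono hsub).trans ((measure_union_le _ _).trans ?_)
    exact add_le_add hS1m ((unfold_le E).trans hEm)
  have := ENNReal.toReal_mono ENNReal.ofReal_ne_top htot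
  rwa [ENNReal.toReal_ofReal (add_nonneg hc1 hc2)] at this

end

end Run7.h748.Cov
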