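import Pool.Agent.Run7.h748.Cov.Func

set_option autoImplicit false

/-!
# Linearly independent vectors of the dual lattice
-/

open MeasureTheory Set
open scoped ENNReal

namespace Run7.h748.Cov

noncomputable section

open Pool.Agent.H160R3.Herm (minSq hermite le_minSq minSq_le le_hermite minSq_nonneg)
open Pool.Agent.TH220.HG (minSq_pos gam)

variable {n k : ℕ}

/-- `w` is a vector of the dual lattice of `A ℤⁿ` -/
def IsDual (A : Matrix (Fin n) (Fin n) ℝ) (w : Fin n → ℝ) : Prop :=
  ∀ j, ∃ z : ℤ, ∑ i, A i j * w i = z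

theorem pr_mp : MeasurePreserving (pr : (Fin n → ℝ) → Fin n → UnitAddCircle)
    ((volume : Measure (Fin n → ℝ)).restrict (Set.pi Set.univ fun _ => Set.Ioc (0 : ℝ) 1))
    volume := by
  have h1 := measurePreserving_pi (fun _ : Fin n => (volume : Measure ℝ).restrict (Set.Ioc (0 : ℝ) 1))
    (fun _ : Fin n => (volume : Measure UnitAddCircle))
    (f := fun _ (s : ℝ) => (s : UnitAddCircle)) (fun _ => by
      have := UnitAddCircle.measurePreserving_mk 0
      rwa [zero_add] at this)
  rw [← Measure.restrict_pi_pi] at h1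
  exact h1

theorem cube_ae : cube n =ᵐ[volume] (Set.pi Set.univ fun _ : Fin n => Set.Ioc (0 : ℝ) 1) := by
  have h3 : (Set.pi Set.univ fun _ : Fin n => Set.Ioc (0 : ℝ) 1) =ᵐ[volume]
      (Set.pi Set.univ fun _ : Fin n => Set.Ico (0 : ℝ) 1) := by
    refine (Measure.univ_pi_Ioc_ae_eq_Icc (f := fun _ => (0 : ℝ)) (g := fun _ => 1)).trans ?_
    exact (Measure.univ_pi_Ico_ae_eq_Icc (f := fun _ => (0 : ℝ)) (g := fun _ => 1)).symm
  have h4 : cube n = (Set.pi Set.univ fun _ : Fin n => Set.Ico (0 : ℝ) 1) := by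
    ext t
    simp [cube, Set.mem_pi]
  rw [h4]
  exact h3.symm

theorem cube_integral {g : (Fin n → UnitAddCircle) → ℝ} (hg : Continuous g) :
    ∫ t in cube n, g (pr t) = ∫ x, g x := by
  rw [setIntegral_congr_set cube_ae, ← (pr_mp (n := n)).map_eq,
    integral_map pr_mp.aemeasurable hg.aestronglyMeasurable]

/-- the homomorphism of tori given by an integral matrix -/
def phi (m : Fin k → Fin n → ℤ) : (Fin n → UnitAddCircle) →+ (Fin k → UnitAddCircle) where
  toFun x b := ∑ j, m b j • x j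
  map_zero' := by ext b; simp
  map_add' x y := by
    ext b
    simp [smul_add, Finset.sum_add_distrib]

theorem phi_cont (m : Fin k → Fin n → ℤ) : Continuous (phi m) := by
  refine continuous_pi fun b => ?_
  change Continuous fun x : Fin n → UnitAddCircle => ∑ j, m b j • x j
  fun_prop

theorem phi_pr (m : Fin k → Fin n → ℤ) (t : Fin n → ℝ) :
    phi m (pr t) = pr (fun b => ∑ j, (m b j : ℝ) * t j) := by
  ext b
  change ∑ j, m b j • ((t j : ℝ) : UnitAddCircle) = ((∑ j, (m b j : ℝ) * t j : ℝ) : UnitAddCircle)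
  have : ((∑ j, (m b j : ℝ) * t j : ℝ) : UnitAddCircle) =
      ∑ j, (((m b j : ℝ) * t j : ℝ) : UnitAddCircle) := by
    have h := map_sum (QuotientAddGroup.mk' (AddSubgroup.zmultiples (1 : ℝ)))
      (fun j => (m b j : ℝ) * t j) Finset.univ
    exact h
  rw [this]
  refine Finset.sum_congr rfl fun j _ => ?_
  rw [← zsmul_eq_mul]
  rfl

theorem phi_surj (m : Fin k → Fin n → ℤ)
    (h : ∀ u : Fin k → ℝ, ∃ t : Fin n → ℝ, ∀ b, ∑ j, (m b j : ℝ) * t j = u b) :
    Function.Surjective (phi m) := by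
  intro y
  obtain ⟨u, hu⟩ := pr_surj y
  obtain ⟨t, ht⟩ := h u
  refine ⟨pr t, ?_⟩
  rw [phi_pr, ← hu]
  congr 1
  exact funext ht

theorem phi_mp (m : Fin k → Fin n → ℤ) (h : Function.Surjective (phi m)) :
    MeasurePreserving (phi m) volume volume :=
  AddMonoidHom.measurePreserving (phi_cont m) h (by rw [vol_univ, vol_univ])

/-- the factor -/
def psi (l : ℝ) (s : UnitAddCircle) : ℝ := Real.exp (l * (fourier 1 s : ℂ).re)

theorem psi_cont (l : ℝ) : Continuous (psi l) := by
  unfold psi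
  exact Real.continuous_exp.comp (continuous_const.mul
    (Complex.continuous_re.comp (fourier 1).continuous))

theorem four_re (x : ℝ) : (fourier 1 (x : UnitAddCircle) : ℂ).re = Real.cos (2 * Real.pi * x) := by
  rw [fourier_coe_apply]
  have : (2 * (Real.pi : ℂ) * Complex.I * ((1 : ℤ) : ℂ) * (x : ℂ) / ((1 : ℝ) : ℂ)) =
      ((2 * Real.pi * x : ℝ) : ℂ) * Complex.I := by push_cast; ring
  rw [this, Complex.exp_ofReal_mul_I_re]

theorem psi_integral (l : ℝ) : ∫ s, psi l s ≤ Real.exp (l ^ 2 / 2) := by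
  have h1 := UnitAddCircle.intervalIntegral_preimage 0 (psi l)
  rw [← h1]
  have h2 : ∀ x : ℝ, psi l (x : UnitAddCircle) ≤
      Real.cosh l + Real.sinh l * Real.cos (2 * Real.pi * x) := by
    intro x
    unfold psi
    rw [four_re]
    set c := Real.cos (2 * Real.pi * x) with hc
    have hc1 : c ≤ 1 := Real.cos_le_one _
    have hc2 : -1 ≤ c := Real.neg_one_le_cos _
    have hconv := convexOn_exp.2 (Set.mem_univ l) (Set.mem_univ (-l))
      (show 0 ≤ (1 + c) / 2 by linarith) (show 0 ≤ (1 - c) / 2 by linarith) (by ring)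
    simp only [smul_eq_mul] at hconv
    have e1 : (1 + c) / 2 * l + (1 - c) / 2 * -l = l * c := by ring
    rw [e1] at hconv
    refine hconv.trans (le_of_eq ?_)
    rw [Real.cosh_eq, Real.sinh_eq]; ring
  have hi1 : IntervalIntegrable (fun x : ℝ => psi l (x : UnitAddCircle)) volume 0 (0 + 1) :=
    ((psi_cont l).comp (AddCircle.continuous_mk' 1)).intervalIntegrable _ _
  have hi2 : IntervalIntegrable (fun x : ℝ => Real.cosh l + Real.sinh l * Real.cos (2 * Real.pi * x))
      volume 0 (0 + 1) := by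
    apply Continuous.intervalIntegrable
    fun_prop
  calc ∫ x in (0 : ℝ)..(0 + 1), psi l (x : UnitAddCircle)
      ≤ ∫ x in (0 : ℝ)..(0 + 1), (Real.cosh l + Real.sinh l * Real.cos (2 * Real.pi * x)) :=
        intervalIntegral.integral_mono_on (by norm_num) hi1 hi2 (fun x _ => h2 x)
    _ = Real.cosh l := by
        rw [intervalIntegral.integral_add (by simp) (by
          apply Continuous.intervalIntegrable; fun_prop), intervalIntegral.integral_const,
          intervalIntegral.integral_const_mul]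
        have : ∫ x in (0 : ℝ)..(0 + 1), Real.cos (2 * Real.pi * x) = 0 := by
          rw [intervalIntegral.integral_comp_mul_left (fun x => Real.cos x) (by positivity),
            integral_cos]
          simp
        rw [this]; simp
    _ ≤ _ := Real.cosh_le_exp_half_sq l

/-- a weighted sum of characters -/
def Tf (lam : Fin k → ℝ) (w : Fin k → Fin n → ℝ) (x : Fin n → ℝ) : ℝ :=
  ∑ b, lam b * Real.cos (2 * Real.pi * ∑ i, w b i * x i)

theorem Tf_cont (lam : Fin k → ℝ) (w : Fin k → Fin n → ℝ) : Continuous (Tf lam w) := by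
  unfold Tf; fun_prop

theorem Tf_per {A : Matrix (Fin n) (Fin n) ℝ} (lam : Fin k → ℝ) {w : Fin k → Fin n → ℝ}
    (hw : ∀ b, IsDual A (w b)) : Periodic A (Tf lam w) := by
  intro z x
  unfold Tf
  refine Finset.sum_congr rfl fun b _ => ?_
  congr 1
  choose m hm using hw b
  have e1 : ∑ i, w b i * (x + A.mulVec fun i => (z i : ℝ)) i =
      ∑ i, w b i * x i + ((∑ j, m j * z j : ℤ) : ℝ) := by
    simp only [Pi.add_apply, mul_add, Finset.sum_add_distrib]
    congr 1
    push_cast
    simp_rw [← hm, Matrix.mulVec, dotProduct, Finset.mul_sum, Finset.sum_mul]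
    rw [Finset.sum_comm]
    refine Finset.sum_congr rfl fun j _ => Finset.sum_congr rfl fun i _ => by ring
  rw [e1, mul_add]
  have e2 : 2 * Real.pi * ((∑ j, m j * z j : ℤ) : ℝ) = ((∑ j, m j * z j : ℤ) : ℝ) * (2 * Real.pi) := by
    ring
  rw [e2, Real.cos_add_int_mul_two_pi]

theorem cell_Tf {A : Matrix (Fin n) (Fin n) ℝ} (hA : A.det ≠ 0) (lam : Fin k → ℝ)
    {w : Fin k → Fin n → ℝ} (hw : ∀ b, IsDual A (w b)) (hlin : LinearIndependent ℝ w) :
    cellMean A (fun x => Real.exp (Tf lam w x)) ≤ Real.exp (∑ b, lam b ^ 2 / 2) := by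
  have hdet : IsUnit A.det := isUnit_iff_ne_zero.mpr hA
  choose m hm using hw
  have hint : ∀ b (t : Fin n → ℝ), ∑ i, w b i * (A.mulVec t) i = ∑ j, (m b j : ℝ) * t j := by
    intro b t
    simp_rw [← hm, Matrix.mulVec, dotProduct, Finset.mul_sum, Finset.sum_mul]
    rw [Finset.sum_comm]
    refine Finset.sum_congr rfl fun j _ => Finset.sum_congr rfl fun i _ => by ring
  have hsurj : Function.Surjective (phi m) := by
    apply phi_surj
    intro u
    have hrank : (Matrix.of w).rank = Fintype.card (Fin k) :=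
      LinearIndependent.rank_matrix (M := Matrix.of w) hlin
    have hrange : LinearMap.range (Matrix.of w).mulVecLin = ⊤ := by
      apply Submodule.eq_top_of_finrank_eq
      have : Module.finrank ℝ (LinearMap.range (Matrix.of w).mulVecLin) = (Matrix.of w).rank := rfl
      rw [this, hrank]; simp
    obtain ⟨x, hx⟩ := LinearMap.range_eq_top.1 hrange u
    refine ⟨A⁻¹.mulVec x, fun b => ?_⟩
    rw [← hint, Matrix.mulVec_mulVec, Matrix.mul_nonsing_inv _ hdet, Matrix.one_mulVec]
    have := congrFun hx b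
    simpa [Matrix.mulVec, dotProduct] using this
  have hg : Continuous fun y : Fin k → UnitAddCircle => ∏ b, psi (lam b) (y b) :=
    continuous_finsetProd _ fun b _ => (psi_cont (lam b)).comp (continuous_apply b)
  have e1 : cellMean A (fun x => Real.exp (Tf lam w x)) =
      ∫ t in cube n, (fun x => ∏ b, psi (lam b) (phi m x b)) (pr t) := by
    unfold cellMean
    apply integral_congr_ae
    refine ae_of_all _ fun t => ?_
    simp only []
    rw [phi_pr]
    unfold Tf
    rw [Real.exp_sum]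
    refine Finset.prod_congr rfl fun b _ => ?_
    unfold psi pr
    rw [four_re, hint]
  have hg2 : Continuous fun x : Fin n → UnitAddCircle => ∏ b, psi (lam b) (phi m x b) :=
    hg.comp (phi_cont m)
  rw [e1, cube_integral hg2]
  have e2 : ∫ x, ∏ b, psi (lam b) (phi m x b) = ∫ y : Fin k → UnitAddCircle, ∏ b, psi (lam b) (y b) := by
    have h1 := (phi_mp m hsurj).map_eq
    conv_rhs => rw [← h1]
    rw [integral_map (phi_cont m).measurable.aemeasurable hg.aestronglyMeasurable]
  rw [e2, integral_fintype_prod_volume_eq_prod (fun b => psi (lam b)), Real.exp_sum]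
  apply Finset.prod_le_prod
  · intro b _
    exact integral_nonneg fun s => (Real.exp_pos _).le
  · intro b _
    exact psi_integral (lam b)

theorem gauss_Tf {v : ℝ} (hv : 0 < v) (lam : Fin k → ℝ) (w : Fin k → Fin n → ℝ) :
    gaussMean v (Tf lam w) =
      ∑ b, lam b * Real.exp (-(2 * Real.pi ^ 2 * v * ∑ i, w b i ^ 2)) := by
  rw [← gm_eq hv]
  set a := 1 / (2 * v) with ha
  have ha0 : 0 < a := by positivity
  unfold gm Tf
  have hZ := Z_pos (n := n) ha0
  have e1 : ∀ x : Fin n → ℝ, (∑ b, lam b * Real.cos (2 * Real.pi * ∑ i, w b i * x i)) * G a x =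
      ∑ b, lam b * (Real.cos (∑ i, ((2 * Real.pi) • w b) i * x i) * G a x) := by
    intro x
    rw [Finset.sum_mul]
    refine Finset.sum_congr rfl fun b _ => ?_
    have : ∑ i, ((2 * Real.pi) • w b) i * x i = 2 * Real.pi * ∑ i, w b i * x i := by
      rw [Finset.mul_sum]
      refine Finset.sum_congr rfl fun i _ => ?_
      simp only [Pi.smul_apply, smul_eq_mul]; ring
    rw [this]; ring
  simp_rw [e1]
  rw [integral_finsetSum]
  · rw [Finset.mul_sum]
    refine Finset.sum_congr rfl fun b _ => ?_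
    rw [integral_const_mul, G_cos ha0]
    have e2 : -(sq ((2 * Real.pi) • w b)) / (4 * a) =
        -(2 * Real.pi ^ 2 * v * ∑ i, w b i ^ 2) := by
      have : sq ((2 * Real.pi) • w b) = 4 * Real.pi ^ 2 * ∑ i, w b i ^ 2 := by
        unfold sq
        rw [Finset.mul_sum]
        refine Finset.sum_congr rfl fun i _ => ?_
        simp only [Pi.smul_apply, smul_eq_mul]; ring
      rw [this, ha]
      field_simp
    rw [e2]
    field_simp
  · intro b _
    apply Integrable.const_mul
    have hb : Bdd (fun x : Fin n → ℝ => Real.cos (∑ i, ((2 * Real.pi) • w b) i * x i)) 1 :=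
      ⟨by fun_prop, fun x => Real.abs_cos_le_one _⟩
    exact hb.int ha0

/-- the inequality for linearly independent vectors of the dual lattice -/
theorem dual_ineq (hn : 0 < n) {A : Matrix (Fin n) (Fin n) ℝ} (hA : A.det ≠ 0) {δ α : ℝ}
    (hδ : 0 < δ) (hδ1 : δ ≤ 1) (hα : 0 < α) {w : Fin k → Fin n → ℝ} (hw : ∀ b, IsDual A (w b))
    (hlin : LinearIndependent ℝ w) :
    δ / 4 * gam A ^ ((n : ℝ) / 2) * Real.exp (α / (1 + α) * ((∑ b, Real.exp
        (-(4 * Real.pi ^ 2 * (1 + 2 * α) * (1 + δ) ^ 2 * minSq A * (∑ i, w b i ^ 2) / n))) / 2)) ≤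
      (1 + ((1 + δ) ^ 2 * (2 * Real.pi * Real.exp 1 * gam A / n)) ^ ((n : ℝ) / 2)) *
        hermite n ^ ((n : ℝ) / 2) := by
  have hn0 : (0 : ℝ) < n := by exact_mod_cast hn
  have hm := minSq_pos hn hA
  set v := (1 + 2 * α) * (1 + δ) ^ 2 * minSq A / n with hv
  have hv0 : 0 < v := by positivity
  set lam : Fin k → ℝ := fun b => Real.exp (-(2 * Real.pi ^ 2 * v * ∑ i, w b i ^ 2)) with hlam
  have h1 := functional hn hA hδ hδ1 hα (Tf_cont lam w) (Tf_per lam hw)
  rw [← hv, gauss_Tf hv0] at h1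
  refine le_trans ?_ h1
  have hg := gam_pos hn hA
  apply mul_le_mul_of_nonneg_left _ (by positivity)
  apply Real.exp_le_exp.2
  apply mul_le_mul_of_nonneg_left _ (by positivity)
  have h2 : Real.log (cellMean A fun x => Real.exp (Tf lam w x)) ≤ ∑ b, lam b ^ 2 / 2 := by
    obtain ⟨B, hB⟩ := bdd_of_periodic hA (Tf_cont lam w) (Tf_per lam hw)
    have h3 := Real.log_le_log (cellMean_pos hB) (cell_Tf hA lam hw hlin)
    rwa [Real.log_exp] at h3
  have h4 : ∑ b, Real.exp (-(4 * Real.pi ^ 2 * (1 + 2 * α) * (1 + δ) ^ 2 * minSq A *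
      (∑ i, w b i ^ 2) / n)) = ∑ b, lam b ^ 2 := by
    refine Finset.sum_congr rfl fun b _ => ?_
    rw [hlam]
    simp only []
    rw [← Real.exp_nat_mul]
    congr 1
    rw [hv]
    push_cast
    field_simp
    ring
  have h5 : ∑ b, lam b * Real.exp (-(2 * Real.pi ^ 2 * v * ∑ i, w b i ^ 2)) = ∑ b, lam b ^ 2 := by
    refine Finset.sum_congr rfl fun b _ => ?_
    rw [hlam]; simp only []; ring
  rw [h4, h5]
  rw [← Finset.sum_div] at h2
  linarith

end

end Run7.h748.Cov
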