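import Pool.Agent.Run7.h748.Cov.Comb

set_option autoImplicit false

/-!
# The inequality for Gaussian means of periodic functions
-/

open MeasureTheory Set
open scoped ENNReal

namespace Run7.h748.Cov

noncomputable section

open Pool.Agent.H160R3.Herm (minSq hermite le_minSq minSq_le le_hermite minSq_nonneg)
open Pool.Agent.TH220.HG (minSq_pos gam)

variable {n : ℕ}

/-- the mean of `f` with respect to the centred Gaussian distribution on `ℝⁿ` with variance `v` in
every coordinate -/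
def gaussMean (v : ℝ) (f : (Fin n → ℝ) → ℝ) : ℝ :=
  (2 * Real.pi * v) ^ (-((n : ℝ) / 2)) * ∫ x, f x * Real.exp (-(∑ i, x i ^ 2) / (2 * v))

theorem gm_eq {v : ℝ} (hv : 0 < v) (f : (Fin n → ℝ) → ℝ) :
    gm (1 / (2 * v)) f = gaussMean v f := by
  unfold gm gaussMean Z G sq
  rw [Real.rpow_neg (by positivity)]
  have e1 : Real.pi / (1 / (2 * v)) = 2 * Real.pi * v := by field_simp
  have e2 : ∀ x : Fin n → ℝ, -(1 / (2 * v)) * ∑ i, x i ^ 2 = -(∑ i, x i ^ 2) / (2 * v) := by
    intro x; field_simp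
  rw [e1]
  simp_rw [e2]

/-- a continuous periodic function is bounded -/
theorem bdd_of_periodic {A : Matrix (Fin n) (Fin n) ℝ} (hA : A.det ≠ 0) {f : (Fin n → ℝ) → ℝ}
    (hf : Continuous f) (hper : Periodic A f) : ∃ B, Bdd f B := by
  have hc : IsCompact (Set.pi Set.univ fun _ : Fin n => Set.Icc (0 : ℝ) 1) :=
    isCompact_univ_pi fun _ => isCompact_Icc
  obtain ⟨D, hD⟩ := hc.exists_bound_of_continuousOn (f := fun t => f (A.mulVec t))
    (hf.comp (mulVec_cont A)).continuousOn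
  refine ⟨D, hf, fun x => ?_⟩
  have hdet : IsUnit A.det := isUnit_iff_ne_zero.mpr hA
  set s := A⁻¹.mulVec x with hs
  have hx : A.mulVec s = x := by
    rw [hs, Matrix.mulVec_mulVec, Matrix.mul_nonsing_inv _ hdet, Matrix.one_mulVec]
  have h1 := hD (s - fun i => (⌊s i⌋ : ℝ)) (by
    intro i _
    simp only [Pi.sub_apply, Set.mem_Icc]
    exact ⟨by linarith [Int.floor_le (s i)], by linarith [Int.lt_floor_add_one (s i)]⟩)
  have h2 := hper (fun i => ⌊s i⌋) (A.mulVec (s - fun i => (⌊s i⌋ : ℝ)))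
  rw [← Matrix.mulVec_add, sub_add_cancel, hx] at h2
  rw [h2]
  simpa [Real.norm_eq_abs] using h1

theorem gam_rpow' (hn : 0 < n) {A : Matrix (Fin n) (Fin n) ℝ} (hA : A.det ≠ 0) :
    gam A ^ ((n : ℝ) / 2) = minSq A ^ ((n : ℝ) / 2) / |A.det| := by
  have hn0 : (0 : ℝ) < n := by exact_mod_cast hn
  have hm := minSq_pos hn hA
  have hexp : (2 : ℝ) / n * (n / 2) = 1 := by field_simp
  have hd := abs_pos.2 hA
  unfold gam
  rw [Real.div_rpow hm.le (by positivity), ← Real.rpow_mul hd.le, hexp, Real.rpow_one]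

theorem gam_pos (hn : 0 < n) {A : Matrix (Fin n) (Fin n) ℝ} (hA : A.det ≠ 0) : 0 < gam A := by
  have hm := minSq_pos hn hA
  have hd := abs_pos.2 hA
  unfold gam
  positivity

theorem X_eq (hn : 0 < n) {A : Matrix (Fin n) (Fin n) ℝ} (hA : A.det ≠ 0) {δ : ℝ} (hδ : 0 < δ) :
    |A.det|⁻¹ * (Real.exp ((n : ℝ) / 2) * Z n (n / (2 * ((1 + δ) * √(minSq A)) ^ 2))) =
      ((1 + δ) ^ 2 * (2 * Real.pi * Real.exp 1 * gam A / n)) ^ ((n : ℝ) / 2) := by
  have hn0 : (0 : ℝ) < n := by exact_mod_cast hn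
  have hm := minSq_pos hn hA
  have hg := gam_pos hn hA
  have hd := abs_pos.2 hA
  have e1 : (1 + δ) ^ 2 * (2 * Real.pi * Real.exp 1 * gam A / n) =
      (Real.exp 1 * (2 * Real.pi * (1 + δ) ^ 2 / n)) * gam A := by ring
  rw [e1, Real.mul_rpow (by positivity) hg.le, gam_rpow' hn hA, Real.mul_rpow (by positivity)
    (by positivity), Real.exp_one_rpow]
  unfold Z
  have e2 : Real.pi / (n / (2 * ((1 + δ) * √(minSq A)) ^ 2)) =
      (2 * Real.pi * (1 + δ) ^ 2 / n) * minSq A := by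
    rw [mul_pow, Real.sq_sqrt hm.le]
    field_simp
  rw [e2, Real.mul_rpow (by positivity) hm.le]
  field_simp

theorem functional (hn : 0 < n) {A : Matrix (Fin n) (Fin n) ℝ} (hA : A.det ≠ 0) {δ α : ℝ}
    (hδ : 0 < δ) (hδ1 : δ ≤ 1) (hα : 0 < α) {f : (Fin n → ℝ) → ℝ} (hf : Continuous f)
    (hper : Periodic A f) :
    δ / 4 * gam A ^ ((n : ℝ) / 2) * Real.exp (α / (1 + α) *
        (gaussMean ((1 + 2 * α) * (1 + δ) ^ 2 * minSq A / n) f -
        Real.log (cellMean A fun x => Real.exp (f x)))) ≤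
      (1 + ((1 + δ) ^ 2 * (2 * Real.pi * Real.exp 1 * gam A / n)) ^ ((n : ℝ) / 2)) *
        hermite n ^ ((n : ℝ) / 2) := by
  obtain ⟨B, hB⟩ := bdd_of_periodic hA hf hper
  have hn0 : (0 : ℝ) < n := by exact_mod_cast hn
  have hm := minSq_pos hn hA
  have hr := Real.sqrt_pos.2 hm
  set ρ := (1 + δ) * √(minSq A) with hρ
  have hρ0 : 0 < ρ := by positivity
  set a : ℝ := n / (2 * ρ ^ 2) with ha
  have ha0 : 0 < a := by positivity
  set c : ℝ := a / (2 * α) with hc
  have hc0 : 0 < c := by positivity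
  have hac : α * c = a / 2 := by rw [hc]; field_simp
  set v := (1 + 2 * α) * (1 + δ) ^ 2 * minSq A / n with hv
  have hv0 : 0 < v := by positivity
  have hav : a * c / (a + c) = 1 / (2 * v) := by
    have e1 : a * c / (a + c) = a / (1 + 2 * α) := by
      rw [hc]; field_simp; ring
    rw [e1, ha, hv, hρ, mul_pow, Real.sq_sqrt hm.le]
    field_simp
  have hgm : gm (a * c / (a + c)) f = gaussMean v f := by rw [hav]; exact gm_eq hv0 f
  set M := cellMean A (fun x => Real.exp (f x)) with hM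
  have hM0 : 0 < M := cellMean_pos hB
  set e := gaussMean v f with he
  set q := Real.log M with hq
  have hα1 : 0 < 1 + α := by positivity
  have hcb := comb (ρ := ρ) hA hB hper ha0 hc0 hα.le hac ((q + α * e) / (1 + α))
  rw [hgm, ← hM, ← Real.exp_log hM0, ← hq] at hcb
  have haρ : a * ρ ^ 2 = n / 2 := by rw [ha]; field_simp
  rw [haρ] at hcb
  have hX := X_eq hn hA hδ
  rw [← hρ, ← ha] at hX
  have e1 : Real.exp (-((q + α * e) / (1 + α))) * Real.exp q +
      |A.det|⁻¹ * (Real.exp (α * ((q + α * e) / (1 + α)) + n / 2) *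
        (Z n a * Real.exp (-(α * e)))) =
      Real.exp (-(α / (1 + α) * (e - q))) *
        (1 + ((1 + δ) ^ 2 * (2 * Real.pi * Real.exp 1 * gam A / n)) ^ ((n : ℝ) / 2)) := by
    rw [← hX, ← Real.exp_add, Real.exp_add (α * ((q + α * e) / (1 + α)))]
    have e2 : Real.exp (α * ((q + α * e) / (1 + α))) * Real.exp (-(α * e)) =
        Real.exp (-(α / (1 + α) * (e - q))) := by
      rw [← Real.exp_add]; congr 1; field_simp; ring
    have e3 : -((q + α * e) / (1 + α)) + q = -(α / (1 + α) * (e - q)) := by field_simp; ring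
    rw [e3, ← e2]
    ring
  rw [e1] at hcb
  have hcov := coverage hn hA hδ hδ1
  rw [← hρ] at hcov
  have hH : 0 ≤ hermite n ^ ((n : ℝ) / 2) := by
    have := Pool.Agent.H160R3.Herm.one_le_hermite hn
    positivity
  calc δ / 4 * gam A ^ ((n : ℝ) / 2) * Real.exp (α / (1 + α) * (e - q))
      ≤ (covered A ρ * hermite n ^ ((n : ℝ) / 2)) * Real.exp (α / (1 + α) * (e - q)) :=
        mul_le_mul_of_nonneg_right hcov (Real.exp_pos _).le
    _ ≤ (Real.exp (-(α / (1 + α) * (e - q))) *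
        (1 + ((1 + δ) ^ 2 * (2 * Real.pi * Real.exp 1 * gam A / n)) ^ ((n : ℝ) / 2)) *
          hermite n ^ ((n : ℝ) / 2)) * Real.exp (α / (1 + α) * (e - q)) := by gcongr
    _ = _ := by
        have : Real.exp (-(α / (1 + α) * (e - q))) * Real.exp (α / (1 + α) * (e - q)) = 1 := by
          rw [← Real.exp_add]; simp
        linear_combination (1 + ((1 + δ) ^ 2 * (2 * Real.pi * Real.exp 1 * gam A / n)) ^ ((n : ℝ) / 2)) *
          hermite n ^ ((n : ℝ) / 2) * this

/-- the covered fraction is at most the normalised volume of the ball -/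
theorem covered_le (hn : 0 < n) {A : Matrix (Fin n) (Fin n) ℝ} (hA : A.det ≠ 0) {δ : ℝ}
    (hδ : 0 < δ) : covered A ((1 + δ) * √(minSq A)) ≤
      ((1 + δ) ^ 2 * (2 * Real.pi * Real.exp 1 * gam A / n)) ^ ((n : ℝ) / 2) := by
  have hn0 : (0 : ℝ) < n := by exact_mod_cast hn
  have hm := minSq_pos hn hA
  have hr := Real.sqrt_pos.2 hm
  set ρ := (1 + δ) * √(minSq A) with hρ
  have hρ0 : 0 < ρ := by positivity
  set a : ℝ := n / (2 * ρ ^ 2) with ha
  have ha0 : 0 < a := by positivity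
  have haρ : a * ρ ^ 2 = n / 2 := by rw [ha]; field_simp
  have hX := X_eq hn hA hδ
  rw [← hρ, ← ha] at hX
  rw [← hX]
  set E : Set (Fin n → ℝ) := {t | N A t < ρ} with hE
  have hEmeas : MeasurableSet E := measurableSet_lt (N_cont A).measurable measurable_const
  have h1 : volume E ≤ ∫⁻ t, ENNReal.ofReal (Real.exp (n / 2)) *
      ENNReal.ofReal (G a (A.mulVec t)) := by
    rw [← lintegral_indicator_one hEmeas]
    apply lintegral_mono
    intro t
    simp only []
    by_cases ht : t ∈ E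
    · rw [indicator_of_mem ht, Pi.one_apply, ← ENNReal.ofReal_mul (Real.exp_pos _).le,
        ← ENNReal.ofReal_one]
      apply ENNReal.ofReal_le_ofReal
      have h2 : 0 ≤ N A t := N_nonneg A t
      have h3 : N A t ^ 2 ≤ ρ ^ 2 := pow_le_pow_left₀ h2 (le_of_lt ht) 2
      rw [N_sq_eq] at h3
      unfold G
      rw [← Real.exp_add, Real.one_le_exp_iff, ← haρ]
      nlinarith
    · rw [indicator_of_notMem ht]
      exact zero_le
  have hmeas : Measurable fun y : Fin n → ℝ => ENNReal.ofReal (G a y) :=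
    (G_cont a).measurable.ennreal_ofReal
  have h4 : ∫⁻ t, ENNReal.ofReal (G a (A.mulVec t)) =
      ENNReal.ofReal |A.det|⁻¹ * ∫⁻ y : Fin n → ℝ, ENNReal.ofReal (G a y) := by
    have h5 := Real.map_matrix_volume_pi_eq_smul_volume_pi hA
    have h6 : Measurable (Matrix.toLin' A : (Fin n → ℝ) → Fin n → ℝ) := by
      have : (Matrix.toLin' A : (Fin n → ℝ) → Fin n → ℝ) = fun t => A.mulVec t := by
        ext t; simp
      rw [this]
      exact (mulVec_cont A).measurable
    have h7 := lintegral_map (μ := volume) hmeas h6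
    rw [h5, lintegral_smul_measure] at h7
    rw [← abs_inv, ← smul_eq_mul, h7]
    simp
  have e1 : ∫⁻ v : Fin n → ℝ, ENNReal.ofReal (G a v) = ENNReal.ofReal (Z n a) := by
    rw [← ofReal_integral_eq_lintegral_ofReal (G_int ha0) (ae_of_all _ fun v => (G_pos a v).le),
      G_integral ha0]
  rw [lintegral_const_mul' _ _ ENNReal.ofReal_ne_top, h4, e1,
    ← ENNReal.ofReal_mul (by positivity), ← ENNReal.ofReal_mul (by positivity)] at h1
  have hZ := Z_pos (n := n) ha0
  unfold covered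
  rw [measureReal_def]
  have hsub : {t : Fin n → ℝ | (∀ i, 0 ≤ t i ∧ t i < 1) ∧
      ∃ z : Fin n → ℤ, √(∑ i, (A.mulVec fun j => t j - z j) i ^ 2) < ρ} ⊆
      {t | t ∈ cube n ∧ ∃ z : Fin n → ℤ, (fun i => t i - z i) ∈ E} := by
    rintro t ⟨ht, z, hz⟩
    refine ⟨ht, z, ?_⟩
    rw [hE, Set.mem_ofPred_eq, N_eq_sqrt]; exact hz
  have htot := (measure_mono hsub).trans ((unfold_le E).trans h1)
  have := ENNReal.toReal_mono ENNReal.ofReal_ne_top htot
  rw [ENNReal.toReal_ofReal (by positivity)] at this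
  refine this.trans (le_of_eq (by ring))

end

end Run7.h748.Cov
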