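import Pool.Agent.Run7.h748.Cov.Dual

set_option autoImplicit false

/-!
# Consequences for Hermite's constant
-/

open MeasureTheory Set

namespace Run7.h748.Cov

noncomputable section

open Pool.Agent.H160R3.Herm (minSq hermite le_minSq minSq_le le_hermite minSq_nonneg)
open Pool.Agent.TH220.HG (minSq_pos gam)

variable {n : ℕ}

theorem super_full (hn : 0 < n) {A : Matrix (Fin n) (Fin n) ℝ} (hA : A.det ≠ 0) {δ : ℝ}
    (hδ : 0 < δ) (hδ1 : δ ≤ 1) :
    ∃ (B : Matrix (Fin n) (Fin n) ℝ) (M : Matrix (Fin n) (Fin n) ℤ),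
      A = B * M.map (fun z : ℤ => (z : ℝ)) ∧ minSq B = minSq A ∧
      δ / 4 ≤ |(M.det : ℝ)| * covered A ((1 + δ) * √(minSq A)) ∧
      (δ / 4) ^ ((2 : ℝ) / n) / (1 + δ) ^ 2 * (n / (2 * Real.pi * Real.exp 1)) ≤ gam B := by
  obtain ⟨B, M, hAB, hmin, hM⟩ := superlattice hn hA hδ hδ1
  refine ⟨B, M, hAB, hmin, hM, ?_⟩
  have hn0 : (0 : ℝ) < n := by exact_mod_cast hn
  have hdet : A.det = B.det * (M.det : ℝ) := by
    have h1 : (M.map (fun z : ℤ => (z : ℝ))).det = (M.det : ℝ) := by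
      have := (Int.castRingHom ℝ).map_det M
      simpa using this.symm
    rw [hAB, Matrix.det_mul, h1]
  have hB : B.det ≠ 0 := fun h => hA (by rw [hdet, h, zero_mul])
  have hM0 : (M.det : ℝ) ≠ 0 := fun h => hA (by rw [hdet, h, mul_zero])
  have hBpos : 0 < |B.det| := abs_pos.2 hB
  have hMpos : 0 < |(M.det : ℝ)| := abs_pos.2 hM0
  have hg := gam_pos hn hA
  have hgB := gam_pos hn hB
  have h1 : gam B ^ ((n : ℝ) / 2) = |(M.det : ℝ)| * gam A ^ ((n : ℝ) / 2) := by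
    rw [gam_rpow' hn hB, gam_rpow' hn hA, hmin, hdet, abs_mul]
    field_simp
  have h2 := covered_le hn hA hδ
  have h3 : δ / 4 ≤ |(M.det : ℝ)| *
      ((1 + δ) ^ 2 * (2 * Real.pi * Real.exp 1 * gam A / n)) ^ ((n : ℝ) / 2) :=
    hM.trans (mul_le_mul_of_nonneg_left h2 hMpos.le)
  have h4 : ((1 + δ) ^ 2 * (2 * Real.pi * Real.exp 1 * gam A / n)) ^ ((n : ℝ) / 2) =
      ((1 + δ) ^ 2 * (2 * Real.pi * Real.exp 1 / n)) ^ ((n : ℝ) / 2) * gam A ^ ((n : ℝ) / 2) := by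
    rw [← Real.mul_rpow (by positivity) hg.le]
    congr 1
    ring
  rw [h4, mul_left_comm, ← h1, ← Real.mul_rpow (by positivity) hgB.le] at h3
  have h5 := Real.rpow_le_rpow (by positivity) h3 (show (0 : ℝ) ≤ 2 / n by positivity)
  rw [← Real.rpow_mul (by positivity)] at h5
  have hexp : (n : ℝ) / 2 * (2 / n) = 1 := by field_simp
  rw [hexp, Real.rpow_one] at h5
  have h6 : (0 : ℝ) < (1 + δ) ^ 2 * (2 * Real.pi * Real.exp 1 / n) := by positivity
  calc (δ / 4) ^ ((2 : ℝ) / n) / (1 + δ) ^ 2 * (n / (2 * Real.pi * Real.exp 1))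
      = (δ / 4) ^ ((2 : ℝ) / n) / ((1 + δ) ^ 2 * (2 * Real.pi * Real.exp 1 / n)) := by
        field_simp
    _ ≤ ((1 + δ) ^ 2 * (2 * Real.pi * Real.exp 1 / n) * gam B) /
        ((1 + δ) ^ 2 * (2 * Real.pi * Real.exp 1 / n)) := by gcongr
    _ = gam B := by field_simp

/-- the final computation -/
theorem finish {β δ : ℝ} (hβ0 : 0 < β) (hδ0 : 0 < δ) (hδβ : δ ≤ β / 4) :
    ∃ n0 : ℕ, ∀ n ≥ n0, ∀ A : Matrix (Fin n) (Fin n) ℝ, A.det ≠ 0 →
      δ / 4 * gam A ^ ((n : ℝ) / 2) * Real.exp (β * n) ≤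
        (1 + ((1 + δ) ^ 2 * (2 * Real.pi * Real.exp 1 * gam A / n)) ^ ((n : ℝ) / 2)) *
          hermite n ^ ((n : ℝ) / 2) →
      (1 + β) * min (gam A) (n / (2 * Real.pi * Real.exp 1)) ≤ hermite n := by
  obtain ⟨n0, hn0⟩ := exists_nat_gt (4 / β * Real.log (8 / δ))
  refine ⟨max n0 1, fun n hn A hA h15 => ?_⟩
  have hnpos : 0 < n := lt_of_lt_of_le one_pos ((le_max_right _ _).trans hn)
  have hn1 : (0 : ℝ) < n := by exact_mod_cast hnpos
  have hnn : (n0 : ℝ) ≤ n := by exact_mod_cast (le_max_left _ _).trans hn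
  have hg := gam_pos hnpos hA
  have hH1 := Pool.Agent.H160R3.Herm.one_le_hermite hnpos
  set y := 2 * Real.pi * Real.exp 1 * gam A / n with hy
  have hy0 : 0 < y := by positivity
  set x := min (gam A) (n / (2 * Real.pi * Real.exp 1)) with hx
  have hx0 : 0 < x := lt_min hg (by positivity)
  have hδn : (1 + δ) ^ n ≤ Real.exp (δ * n) := by
    have h := Real.add_one_le_exp δ
    calc (1 + δ) ^ n ≤ Real.exp δ ^ n := pow_le_pow_left₀ (by positivity) (by linarith) n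
      _ = Real.exp (δ * n) := by rw [← Real.exp_nat_mul]; ring_nf
  have hpow : ((1 + δ) ^ 2) ^ ((n : ℝ) / 2) = (1 + δ) ^ n := by
    rw [← Real.rpow_natCast (1 + δ) 2, ← Real.rpow_mul (by positivity)]
    have : ((2 : ℕ) : ℝ) * ((n : ℝ) / 2) = n := by push_cast; ring
    rw [this, Real.rpow_natCast]
  have hone : 1 ≤ (1 + δ) ^ n := one_le_pow₀ (by linarith)
  have h9 : x ^ ((n : ℝ) / 2) * (1 + ((1 + δ) ^ 2 * y) ^ ((n : ℝ) / 2)) ≤
      2 * (1 + δ) ^ n * gam A ^ ((n : ℝ) / 2) := by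
    rw [Real.mul_rpow (by positivity) hy0.le, hpow]
    rcases le_total y 1 with hy1 | hy1
    · have h10 : y ^ ((n : ℝ) / 2) ≤ 1 := Real.rpow_le_one hy0.le hy1 (by positivity)
      have h11 : x ^ ((n : ℝ) / 2) ≤ gam A ^ ((n : ℝ) / 2) :=
        Real.rpow_le_rpow hx0.le (min_le_left _ _) (by positivity)
      have h12 : 0 ≤ x ^ ((n : ℝ) / 2) := by positivity
      calc x ^ ((n : ℝ) / 2) * (1 + (1 + δ) ^ n * y ^ ((n : ℝ) / 2))
          ≤ x ^ ((n : ℝ) / 2) * ((1 + δ) ^ n + (1 + δ) ^ n * 1) := by gcongr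
        _ = 2 * (1 + δ) ^ n * x ^ ((n : ℝ) / 2) := by ring
        _ ≤ _ := by gcongr
    · have h10 : 1 ≤ y ^ ((n : ℝ) / 2) := Real.one_le_rpow hy1 (by positivity)
      have h11 : x ^ ((n : ℝ) / 2) * y ^ ((n : ℝ) / 2) ≤ gam A ^ ((n : ℝ) / 2) := by
        rw [← Real.mul_rpow hx0.le hy0.le]
        apply Real.rpow_le_rpow (by positivity) _ (by positivity)
        calc x * y ≤ (n / (2 * Real.pi * Real.exp 1)) * y := by
              gcongr; exact min_le_right _ _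
          _ = gam A := by rw [hy]; field_simp
      have h12 : 0 ≤ x ^ ((n : ℝ) / 2) := by positivity
      calc x ^ ((n : ℝ) / 2) * (1 + (1 + δ) ^ n * y ^ ((n : ℝ) / 2))
          ≤ x ^ ((n : ℝ) / 2) * ((1 + δ) ^ n * y ^ ((n : ℝ) / 2) +
            (1 + δ) ^ n * y ^ ((n : ℝ) / 2)) := by
            gcongr
            nlinarith
        _ = 2 * (1 + δ) ^ n * (x ^ ((n : ℝ) / 2) * y ^ ((n : ℝ) / 2)) := by ring
        _ ≤ _ := by gcongr
  have h13 : Real.exp (β * n / 4) ≥ 8 / δ := by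
    have h14 : Real.log (8 / δ) ≤ β * n / 4 := by
      have : 4 / β * Real.log (8 / δ) ≤ n := hn0.le.trans hnn
      rw [div_mul_eq_mul_div, div_le_iff₀ hβ0] at this
      linarith
    calc 8 / δ = Real.exp (Real.log (8 / δ)) := (Real.exp_log (by positivity)).symm
      _ ≤ _ := Real.exp_le_exp.2 h14
  have hXpos : (0 : ℝ) < 1 + ((1 + δ) ^ 2 * y) ^ ((n : ℝ) / 2) := by positivity
  have hHp : (0 : ℝ) < hermite n ^ ((n : ℝ) / 2) := by positivity
  have hgp : (0 : ℝ) < gam A ^ ((n : ℝ) / 2) := by positivity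
  have hxp : (0 : ℝ) < x ^ ((n : ℝ) / 2) := by positivity
  -- combine
  have h16 : Real.exp (β * n / 2) * x ^ ((n : ℝ) / 2) ≤ hermite n ^ ((n : ℝ) / 2) := by
    have h17 : δ / 4 * gam A ^ ((n : ℝ) / 2) * Real.exp (β * n) * x ^ ((n : ℝ) / 2) ≤
        2 * (1 + δ) ^ n * gam A ^ ((n : ℝ) / 2) * hermite n ^ ((n : ℝ) / 2) := by
      calc δ / 4 * gam A ^ ((n : ℝ) / 2) * Real.exp (β * n) * x ^ ((n : ℝ) / 2)
          ≤ (1 + ((1 + δ) ^ 2 * y) ^ ((n : ℝ) / 2)) * hermite n ^ ((n : ℝ) / 2) *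
            x ^ ((n : ℝ) / 2) := by gcongr
        _ = (x ^ ((n : ℝ) / 2) * (1 + ((1 + δ) ^ 2 * y) ^ ((n : ℝ) / 2))) *
            hermite n ^ ((n : ℝ) / 2) := by ring
        _ ≤ _ := by gcongr
    have h18 : δ / 8 * Real.exp (β * n) * x ^ ((n : ℝ) / 2) ≤
        (1 + δ) ^ n * hermite n ^ ((n : ℝ) / 2) := by
      have h19 : (δ / 8 * Real.exp (β * n) * x ^ ((n : ℝ) / 2)) * (2 * gam A ^ ((n : ℝ) / 2)) ≤
          ((1 + δ) ^ n * hermite n ^ ((n : ℝ) / 2)) * (2 * gam A ^ ((n : ℝ) / 2)) := by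
        refine le_trans (le_of_eq ?_) (h17.trans (le_of_eq ?_)) <;> ring
      exact le_of_mul_le_mul_right h19 (by positivity)
    have h20 : (1 + δ) ^ n ≤ Real.exp (β * n / 4) := by
      refine hδn.trans (Real.exp_le_exp.2 ?_)
      nlinarith
    have h21 : 1 ≤ δ / 8 * Real.exp (β * n / 4) := by
      have : δ / 8 * (8 / δ) = 1 := by field_simp
      rw [← this]
      exact mul_le_mul_of_nonneg_left h13 (by positivity)
    have e1 : Real.exp (β * n) = Real.exp (β * n / 4) * Real.exp (β * n / 4) *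
        Real.exp (β * n / 2) := by
      rw [← Real.exp_add, ← Real.exp_add]; congr 1; ring
    have h22 : Real.exp (β * n / 4) * (Real.exp (β * n / 2) * x ^ ((n : ℝ) / 2)) ≤
        Real.exp (β * n / 4) * hermite n ^ ((n : ℝ) / 2) := by
      calc Real.exp (β * n / 4) * (Real.exp (β * n / 2) * x ^ ((n : ℝ) / 2))
          ≤ (δ / 8 * Real.exp (β * n / 4)) *
            (Real.exp (β * n / 4) * (Real.exp (β * n / 2) * x ^ ((n : ℝ) / 2))) :=
            le_mul_of_one_le_left (by positivity) h21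
        _ = δ / 8 * Real.exp (β * n) * x ^ ((n : ℝ) / 2) := by rw [e1]; ring
        _ ≤ (1 + δ) ^ n * hermite n ^ ((n : ℝ) / 2) := h18
        _ ≤ _ := by gcongr
    exact le_of_mul_le_mul_left h22 (Real.exp_pos _)
  have h23 : (Real.exp β * x) ^ ((n : ℝ) / 2) ≤ hermite n ^ ((n : ℝ) / 2) := by
    rw [Real.mul_rpow (Real.exp_pos _).le hx0.le, ← Real.exp_mul]
    have : β * ((n : ℝ) / 2) = β * n / 2 := by ring
    rw [this]
    exact h16
  have h24 : Real.exp β * x ≤ hermite n := by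
    have hn2 : (0 : ℝ) < n / 2 := by positivity
    exact (Real.rpow_le_rpow_iff (by positivity) (by linarith) hn2).1 h23
  have h25 := Real.add_one_le_exp β
  calc (1 + β) * x ≤ Real.exp β * x := by gcongr; linarith
    _ ≤ _ := h24

theorem gap {ε : ℝ} (hε : 0 < ε) (C : ℝ) :
    ∃ n0 : ℕ, ∀ n ≥ n0, ∀ A : Matrix (Fin n) (Fin n) ℝ, A.det ≠ 0 →
      ∀ (k : ℕ) (w : Fin k → Fin n → ℝ), ε * n ≤ k → LinearIndependent ℝ w →
      (∀ b, IsDual A (w b)) → (∀ b, minSq A * ∑ i, w b i ^ 2 ≤ C ^ 2 * n) →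
      (1 + ε * Real.exp (-(48 * Real.pi ^ 2 * C ^ 2)) / 4) *
        min (gam A) (n / (2 * Real.pi * Real.exp 1)) ≤ hermite n := by
  set μ := Real.exp (-(48 * Real.pi ^ 2 * C ^ 2)) with hμ
  have hμ0 : 0 < μ := Real.exp_pos _
  set β := ε * μ / 4 with hβ
  have hβ0 : 0 < β := by positivity
  set δ := min 1 (β / 4) with hδ
  have hδ0 : 0 < δ := lt_min one_pos (by positivity)
  have hδ1 : δ ≤ 1 := min_le_left _ _
  have hδβ : δ ≤ β / 4 := min_le_right _ _
  obtain ⟨n0, hfin⟩ := finish hβ0 hδ0 hδβ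
  refine ⟨max n0 1, fun n hn A hA k w hk hlin hdual hlen => ?_⟩
  have hnpos : 0 < n := lt_of_lt_of_le one_pos ((le_max_right _ _).trans hn)
  have hn1 : (0 : ℝ) < n := by exact_mod_cast hnpos
  have hg := gam_pos hnpos hA
  have hm := minSq_pos hnpos hA
  apply hfin n ((le_max_left _ _).trans hn) A hA
  have h1 := dual_ineq hnpos hA hδ0 hδ1 one_pos hdual hlin
  refine le_trans ?_ h1
  apply mul_le_mul_of_nonneg_left _ (by positivity)
  apply Real.exp_le_exp.2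
  have h3 : ∀ b, μ ≤ Real.exp
      (-(4 * Real.pi ^ 2 * (1 + 2 * 1) * (1 + δ) ^ 2 * minSq A * (∑ i, w b i ^ 2) / n)) := by
    intro b
    apply Real.exp_le_exp.2
    apply neg_le_neg
    rw [div_le_iff₀ hn1]
    have h4 := hlen b
    have h5 : (1 + δ) ^ 2 ≤ 4 := by nlinarith
    have h6 : 0 ≤ minSq A * ∑ i, w b i ^ 2 :=
      mul_nonneg hm.le (Finset.sum_nonneg fun _ _ => sq_nonneg _)
    calc 4 * Real.pi ^ 2 * (1 + 2 * 1) * (1 + δ) ^ 2 * minSq A * ∑ i, w b i ^ 2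
        = 12 * Real.pi ^ 2 * ((1 + δ) ^ 2 * (minSq A * ∑ i, w b i ^ 2)) := by ring
      _ ≤ 12 * Real.pi ^ 2 * (4 * (C ^ 2 * n)) := by
          gcongr
      _ = _ := by ring
  have h7 : (k : ℝ) * μ ≤ ∑ b, Real.exp
      (-(4 * Real.pi ^ 2 * (1 + 2 * 1) * (1 + δ) ^ 2 * minSq A * (∑ i, w b i ^ 2) / n)) := by
    have := Finset.sum_le_sum (s := Finset.univ) fun b _ => h3 b
    simpa using this
  have h8 : ε * n * μ ≤ k * μ := mul_le_mul_of_nonneg_right hk hμ0.le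
  rw [hβ]
  linarith

/-- supercritical Gaussian noise -/
theorem gap_gauss {v η : ℝ} (hv : 1 < v) (hη : 0 < η) :
    ∃ c > 0, ∃ n0 : ℕ, ∀ n ≥ n0, ∀ A : Matrix (Fin n) (Fin n) ℝ, A.det ≠ 0 →
      ∀ f : (Fin n → ℝ) → ℝ, Continuous f → Periodic A f →
      η * n ≤ gaussMean (v * minSq A / n) f - Real.log (cellMean A fun x => Real.exp (f x)) →
      (1 + c) * min (gam A) (n / (2 * Real.pi * Real.exp 1)) ≤ hermite n := by
  set α0 := (v - 1) / 4 with hα0
  have hα00 : 0 < α0 := by rw [hα0]; linarith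
  set β := α0 / (1 + α0) * η with hβ
  have hβ0 : 0 < β := by positivity
  set δ := min (min 1 ((v - 1) / (3 * (v + 1)))) (β / 4) with hδ
  have hδ0 : 0 < δ := lt_min (lt_min one_pos (div_pos (by linarith) (by linarith))) (by positivity)
  have hδ1 : δ ≤ 1 := (min_le_left _ _).trans (min_le_left _ _)
  have hδv : δ ≤ (v - 1) / (3 * (v + 1)) := (min_le_left _ _).trans (min_le_right _ _)
  have hδβ : δ ≤ β / 4 := min_le_right _ _
  set α := (v / (1 + δ) ^ 2 - 1) / 2 with hα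
  have hαα : α0 ≤ α := by
    have h1 : (1 + δ) ^ 2 ≤ 2 * v / (v + 1) := by
      have h2 : (1 + δ) ^ 2 ≤ 1 + 3 * δ := by nlinarith
      have h3 : 1 + 3 * δ ≤ 2 * v / (v + 1) := by
        rw [le_div_iff₀ (by linarith)]
        rw [le_div_iff₀ (by linarith)] at hδv
        nlinarith
      exact h2.trans h3
    have h4 : (v + 1) / 2 ≤ v / (1 + δ) ^ 2 := by
      rw [le_div_iff₀ (by positivity)]
      rw [le_div_iff₀ (by linarith)] at h1
      linarith
    rw [hα, hα0]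
    linarith
  have hα0' : 0 < α := hα00.trans_le hαα
  obtain ⟨n0, hfin⟩ := finish hβ0 hδ0 hδβ
  refine ⟨β, hβ0, max n0 1, fun n hn A hA f hf hper hD => ?_⟩
  have hnpos : 0 < n := lt_of_lt_of_le one_pos ((le_max_right _ _).trans hn)
  have hn1 : (0 : ℝ) < n := by exact_mod_cast hnpos
  have hg := gam_pos hnpos hA
  apply hfin n ((le_max_left _ _).trans hn) A hA
  have h1 := functional hnpos hA hδ0 hδ1 hα0' hf hper
  refine le_trans ?_ h1
  apply mul_le_mul_of_nonneg_left _ (by positivity)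
  apply Real.exp_le_exp.2
  have e1 : (1 + 2 * α) * (1 + δ) ^ 2 * minSq A / n = v * minSq A / n := by
    rw [hα]; field_simp; ring
  rw [e1]
  have h2 : α0 / (1 + α0) ≤ α / (1 + α) := by
    rw [div_le_div_iff₀ (by positivity) (by positivity)]
    nlinarith
  calc β * n = α0 / (1 + α0) * (η * n) := by rw [hβ]; ring
    _ ≤ α / (1 + α) * (η * n) := by gcongr
    _ ≤ _ := by gcongr

theorem gap_int (C : ℝ) :
    ∃ n0 : ℕ, ∀ n ≥ n0, ∀ M : Matrix (Fin n) (Fin n) ℤ, M.det ≠ 0 →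
      minSq (M.map fun z : ℤ => (z : ℝ)) ≤ C ^ 2 * n →
      (1 + Real.exp (-(48 * Real.pi ^ 2 * C ^ 2)) / 4) *
        min (gam (M.map fun z : ℤ => (z : ℝ))) (n / (2 * Real.pi * Real.exp 1)) ≤ hermite n := by
  obtain ⟨n0, h⟩ := gap one_pos C
  refine ⟨n0, fun n hn M hM hmin => ?_⟩
  have h1 : (M.map (fun z : ℤ => (z : ℝ))).det = (M.det : ℝ) := by
    have := (Int.castRingHom ℝ).map_det M
    simpa using this.symm
  have hdet : (M.map (fun z : ℤ => (z : ℝ))).det ≠ 0 := by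
    rw [h1]; exact_mod_cast hM
  have h2 := h n hn _ hdet n (fun b => Pi.single b 1) (by simp)
    (by
      have := (Pi.basisFun ℝ (Fin n)).linearIndependent
      convert this using 1
      ext b i
      simp)
    (fun b j => ⟨M b j, by simp [Pi.single_apply]⟩)
    (fun b => by
      have : ∑ i, (Pi.single b (1 : ℝ) : Fin n → ℝ) i ^ 2 = 1 := by
        simp [Pi.single_apply]
      rw [this, mul_one]; exact hmin)
  simpa using h2

end

end Run7.h748.Cov
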