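import Mathlib

set_option autoImplicit false

/-!
# Gaussian densities on `Fin n → ℝ`
-/

open MeasureTheory Set
open scoped ENNReal

namespace Run7.h748.Cov

noncomputable section

variable {n : ℕ}

/-- squared Euclidean norm -/
def sq (x : Fin n → ℝ) : ℝ := ∑ i, x i ^ 2

/-- Gaussian density without normalisation -/
def G (a : ℝ) (x : Fin n → ℝ) : ℝ := Real.exp (-a * sq x)

/-- the total mass of `G a` -/
def Z (n : ℕ) (a : ℝ) : ℝ := (Real.pi / a) ^ ((n : ℝ) / 2)

theorem sq_nonneg' (x : Fin n → ℝ) : 0 ≤ sq x := Finset.sum_nonneg fun _ _ => sq_nonneg _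

theorem sq_cont : Continuous (sq : (Fin n → ℝ) → ℝ) := by unfold sq; fun_prop

theorem G_cont (a : ℝ) : Continuous (G a : (Fin n → ℝ) → ℝ) := by
  unfold G
  exact Real.continuous_exp.comp (continuous_const.mul sq_cont)

theorem G_pos (a : ℝ) (x : Fin n → ℝ) : 0 < G a x := Real.exp_pos _

theorem Z_pos {a : ℝ} (ha : 0 < a) : 0 < Z n a := Real.rpow_pos_of_pos (by positivity) _

theorem G_lin {a : ℝ} (ha : 0 < a) (w : Fin n → ℝ) :
    Integrable (fun x : Fin n → ℝ => G a x * Real.exp (∑ i, w i * x i)) := by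
  have h := GaussianFourier.integrable_cexp_neg_mul_sum_add (b := (a : ℂ)) (by simpa using ha)
    (fun i : Fin n => (w i : ℂ))
  refine h.re.congr (ae_of_all _ fun x => ?_)
  have e : (-(a : ℂ) * ∑ i, (x i : ℂ) ^ 2 + ∑ i, (w i : ℂ) * x i) =
      (((-a * sq x + ∑ i, w i * x i : ℝ)) : ℂ) := by
    unfold sq; push_cast; ring
  simp only [e]
  rw [G, ← Real.exp_add]
  exact Complex.exp_ofReal_re _

theorem G_int {a : ℝ} (ha : 0 < a) : Integrable (G a : (Fin n → ℝ) → ℝ) := by
  have := G_lin ha (0 : Fin n → ℝ)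
  simpa using this

theorem G_cos {a : ℝ} (ha : 0 < a) (w : Fin n → ℝ) :
    ∫ x : Fin n → ℝ, Real.cos (∑ i, w i * x i) * G a x = Z n a * Real.exp (-(sq w) / (4 * a)) := by
  have hint := GaussianFourier.integrable_cexp_neg_mul_sum_add (b := (a : ℂ)) (by simpa using ha)
    (fun i : Fin n => Complex.I * (w i : ℂ))
  have h := GaussianFourier.integral_cexp_neg_mul_sum_add (b := (a : ℂ)) (by simpa using ha)
    (fun i : Fin n => Complex.I * (w i : ℂ))
  have h2 := integral_re hint
  rw [h] at h2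
  have e1 : ∀ x : Fin n → ℝ, RCLike.re (Complex.exp (-(a : ℂ) * ∑ i, (x i : ℂ) ^ 2 +
      ∑ i, Complex.I * (w i : ℂ) * x i)) = Real.cos (∑ i, w i * x i) * G a x := by
    intro x
    have e : (-(a : ℂ) * ∑ i, (x i : ℂ) ^ 2 + ∑ i, Complex.I * (w i : ℂ) * x i) =
        ((-a * sq x : ℝ) : ℂ) + ((∑ i, w i * x i : ℝ) : ℂ) * Complex.I := by
      unfold sq
      push_cast
      rw [Finset.sum_mul]
      congr 1
      refine Finset.sum_congr rfl fun i _ => by ring
    rw [e]
    change (Complex.exp _).re = _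
    rw [Complex.exp_add, ← Complex.ofReal_exp, Complex.re_ofReal_mul, Complex.exp_ofReal_mul_I_re, G]
    ring
  simp_rw [e1] at h2
  rw [h2]
  have e2 : ((Real.pi : ℂ) / (a : ℂ)) ^ ((Fintype.card (Fin n) : ℂ) / 2) = ((Z n a : ℝ) : ℂ) := by
    unfold Z
    rw [Complex.ofReal_cpow (by positivity)]
    push_cast
    simp
  have e3 : ((∑ i, (Complex.I * (w i : ℂ)) ^ 2) / (4 * (a : ℂ))) =
      ((-(sq w) / (4 * a) : ℝ) : ℂ) := by
    unfold sq
    push_cast
    congr 1
    rw [← Finset.sum_neg_distrib]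
    refine Finset.sum_congr rfl fun i _ => ?_
    rw [mul_pow, Complex.I_sq]; ring
  rw [e2, e3, ← Complex.ofReal_exp, ← Complex.ofReal_mul]
  exact Complex.ofReal_re _

theorem G_integral {a : ℝ} (ha : 0 < a) : ∫ x : Fin n → ℝ, G a x = Z n a := by
  have := G_cos ha (0 : Fin n → ℝ)
  simpa [sq] using this

theorem G_neg (a : ℝ) (x : Fin n → ℝ) : G a (-x) = G a x := by simp [G, sq]

theorem lin_int {a : ℝ} (ha : 0 < a) (w : Fin n → ℝ) :
    Integrable (fun x : Fin n → ℝ => (∑ i, w i * x i) * G a x) := by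
  have h := (G_lin ha w).add (G_lin ha (-w))
  refine h.mono' ?_ (ae_of_all _ fun x => ?_)
  · have : Continuous fun x : Fin n → ℝ => (∑ i, w i * x i) * G a x :=
      Continuous.mul (by fun_prop) (G_cont a)
    exact this.aestronglyMeasurable
  · simp only [Pi.add_apply, Real.norm_eq_abs, abs_mul, abs_of_pos (G_pos a x)]
    have e : ∑ i, (-w) i * x i = -∑ i, w i * x i := by
      simp [Finset.sum_neg_distrib]
    rw [e, ← mul_add, mul_comm]
    apply mul_le_mul_of_nonneg_left _ (G_pos a x).le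
    rcases abs_cases (∑ i, w i * x i) with ⟨h, _⟩ | ⟨h, _⟩
    · rw [h]
      have := Real.add_one_le_exp (∑ i, w i * x i)
      have := Real.exp_pos (-∑ i, w i * x i)
      linarith
    · rw [h]
      have := Real.add_one_le_exp (-∑ i, w i * x i)
      have := Real.exp_pos (∑ i, w i * x i)
      linarith

theorem lin_zero (a : ℝ) (w : Fin n → ℝ) :
    ∫ x : Fin n → ℝ, (∑ i, w i * x i) * G a x = 0 := by
  have h := integral_neg_eq_self (fun x : Fin n → ℝ => (∑ i, w i * x i) * G a x) volume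
  have e : ∀ x : Fin n → ℝ, (∑ i, w i * (-x) i) * G a (-x) = -((∑ i, w i * x i) * G a x) := by
    intro x
    rw [G_neg]
    simp [Finset.sum_neg_distrib]
  simp_rw [e] at h
  rw [integral_neg] at h
  linarith

theorem sq_sub (x y : Fin n → ℝ) : sq (x - y) = sq x - 2 * ∑ i, y i * x i + sq y := by
  unfold sq
  rw [Finset.mul_sum, ← Finset.sum_sub_distrib, ← Finset.sum_add_distrib]
  refine Finset.sum_congr rfl fun i _ => ?_
  simp only [Pi.sub_apply]
  ring

theorem sq_add (x y : Fin n → ℝ) : sq (x + y) = sq x + 2 * ∑ i, y i * x i + sq y := by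
  unfold sq
  rw [Finset.mul_sum, ← Finset.sum_add_distrib, ← Finset.sum_add_distrib]
  refine Finset.sum_congr rfl fun i _ => ?_
  simp only [Pi.add_apply]
  ring

/-- completing the square -/
theorem G_conv {a c : ℝ} (ha : 0 < a) (hc : 0 < c) (x : Fin n → ℝ) :
    ∫ v : Fin n → ℝ, G a v * G c (x - v) = Z n (a + c) * G (a * c / (a + c)) x := by
  have hac : a + c ≠ 0 := by positivity
  have e : ∀ v : Fin n → ℝ, G a v * G c (x - v) =
      G (a * c / (a + c)) x * G (a + c) (v - (c / (a + c)) • x) := by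
    intro v
    unfold G
    rw [← Real.exp_add, ← Real.exp_add]
    congr 1
    have h1 : sq ((c / (a + c)) • x) = (c / (a + c)) ^ 2 * sq x := by
      unfold sq
      rw [Finset.mul_sum]
      refine Finset.sum_congr rfl fun i _ => ?_
      simp only [Pi.smul_apply, smul_eq_mul]; ring
    have h2 : ∑ i, ((c / (a + c)) • x) i * v i = (c / (a + c)) * ∑ i, v i * x i := by
      rw [Finset.mul_sum]
      refine Finset.sum_congr rfl fun i _ => ?_
      simp only [Pi.smul_apply, smul_eq_mul]; ring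
    rw [sq_sub, sq_sub, h1, h2]
    field_simp
    ring
  simp_rw [e]
  rw [integral_const_mul, integral_sub_right_eq_self (fun v => G (a + c) v),
    G_integral (by positivity)]
  ring

theorem Z_mul {a c : ℝ} (ha : 0 < a) (hc : 0 < c) :
    Z n a * Z n c = Z n (a + c) * Z n (a * c / (a + c)) := by
  unfold Z
  rw [← Real.mul_rpow (by positivity) (by positivity), ← Real.mul_rpow (by positivity) (by positivity)]
  congr 1
  field_simp

end

end Run7.h748.Cov
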