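import Pool.Agent.Run7.h748.Cov.Basis
import Pool.Agent.TH220.HG.Sub

set_option autoImplicit false

/-!
# Superlattices with the same minimum and the covered fraction
-/

open MeasureTheory Set
open scoped ENNReal

namespace Run7.h748.Cov

noncomputable section

variable {n : ℕ}

/-- the fraction of the space covered by the open balls of radius `ρ` about the points of the
lattice `A ℤⁿ`: the volume of the covered part of the unit cube in the coordinates `t ↦ A t` -/
def covered (A : Matrix (Fin n) (Fin n) ℝ) (ρ : ℝ) : ℝ :=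
  volume.real {t : Fin n → ℝ | (∀ i, 0 ≤ t i ∧ t i < 1) ∧
    ∃ z : Fin n → ℤ, √(∑ i, (A.mulVec fun j => t j - z j) i ^ 2) < ρ}

theorem N_eq_sqrt (A : Matrix (Fin n) (Fin n) ℝ) (t : Fin n → ℝ) :
    N A t = √(∑ i, (A.mulVec t) i ^ 2) := by
  rw [← N_sq, Real.sqrt_sq (N_nonneg A t)]

theorem mem_U_pr (A : Matrix (Fin n) (Fin n) ℝ) (ρ : ℝ) (t : Fin n → ℝ) :
    pr t ∈ U A ρ ↔ ∃ z : Fin n → ℤ, √(∑ i, (A.mulVec fun j => t j - z j) i ^ 2) < ρ := by
  constructor
  · rintro ⟨s, hs, hN⟩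
    have h1 : pr (t - s) = 0 := by rw [pr_sub, hs, sub_self]
    obtain ⟨z, hz⟩ := (pr_eq_zero_iff _).1 h1
    refine ⟨z, ?_⟩
    rw [← N_eq_sqrt]
    convert hN using 2
    ext j
    have := hz j
    simp only [Pi.sub_apply] at this
    linarith
  · rintro ⟨z, hz⟩
    refine ⟨fun j => t j - z j, ?_, by rw [N_eq_sqrt]; exact hz⟩
    have h1 : (fun j => t j - z j) = t - fun j => (z j : ℝ) := rfl
    rw [h1, pr_sub, (pr_eq_zero_iff _).2 ⟨z, fun _ => rfl⟩, sub_zero]

theorem vol_torus {V : Set (Fin n → UnitAddCircle)} (hV : MeasurableSet V) :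
    volume V = volume {t : Fin n → ℝ | (∀ i, 0 ≤ t i ∧ t i < 1) ∧ pr t ∈ V} := by
  have hmp : MeasurePreserving (pr : (Fin n → ℝ) → Fin n → UnitAddCircle)
      ((volume : Measure (Fin n → ℝ)).restrict (Set.pi Set.univ fun _ => Set.Ioc (0 : ℝ) 1))
      volume := by
    have h1 := measurePreserving_pi (fun _ : Fin n => (volume : Measure ℝ).restrict (Set.Ioc (0 : ℝ) 1))
      (fun _ : Fin n => (volume : Measure UnitAddCircle))
      (f := fun _ (s : ℝ) => (s : UnitAddCircle)) (fun _ => by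
        have := UnitAddCircle.measurePreserving_mk 0
        rwa [zero_add] at this)
    rw [← Measure.restrict_pi_pi] at h1
    exact h1
  have h2 := hmp.measure_preimage hV.nullMeasurableSet
  have hpm : MeasurableSet (pr ⁻¹' V : Set (Fin n → ℝ)) := pr_cont.measurable hV
  rw [Measure.restrict_apply hpm] at h2
  rw [← h2]
  have h3 : (Set.pi Set.univ fun _ : Fin n => Set.Ioc (0 : ℝ) 1) =ᵐ[volume]
      (Set.pi Set.univ fun _ : Fin n => Set.Ico (0 : ℝ) 1) := by
    refine (Measure.univ_pi_Ioc_ae_eq_Icc (f := fun _ => (0 : ℝ)) (g := fun _ => 1)).trans ?_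
    exact (Measure.univ_pi_Ico_ae_eq_Icc (f := fun _ => (0 : ℝ)) (g := fun _ => 1)).symm
  have h4 : {t : Fin n → ℝ | (∀ i, 0 ≤ t i ∧ t i < 1) ∧ pr t ∈ V} =
      pr ⁻¹' V ∩ (Set.pi Set.univ fun _ : Fin n => Set.Ico (0 : ℝ) 1) := by
    ext t
    simp [Set.mem_pi, and_comm]
  rw [h4]
  exact measure_congr ((ae_eq_refl _).inter h3)

theorem covered_eq (A : Matrix (Fin n) (Fin n) ℝ) (ρ : ℝ) :
    volume (U A ρ) = ENNReal.ofReal (covered A ρ) := by
  have h1 := vol_torus (U_open A ρ).measurableSet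
  have h2 : {t : Fin n → ℝ | (∀ i, 0 ≤ t i ∧ t i < 1) ∧ pr t ∈ U A ρ} =
      {t : Fin n → ℝ | (∀ i, 0 ≤ t i ∧ t i < 1) ∧
        ∃ z : Fin n → ℤ, √(∑ i, (A.mulVec fun j => t j - z j) i ^ 2) < ρ} := by
    ext t
    simp only [Set.mem_ofPred_eq, mem_U_pr]
  rw [h2] at h1
  rw [covered, measureReal_def, ← h1, ENNReal.ofReal_toReal (measure_ne_top _ _)]

theorem covered_nonneg (A : Matrix (Fin n) (Fin n) ℝ) (ρ : ℝ) : 0 ≤ covered A ρ :=
  measureReal_nonneg

open Pool.Agent.H160R3.Herm (minSq hermite le_minSq minSq_le le_hermite minSq_nonneg)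
open Pool.Agent.TH220.HG (minSq_pos gam exists_min)

/-- every lattice has a superlattice with the same minimum and large index -/
theorem superlattice (hn : 0 < n) {A : Matrix (Fin n) (Fin n) ℝ} (hA : A.det ≠ 0) {δ : ℝ}
    (hδ : 0 < δ) (hδ1 : δ ≤ 1) :
    ∃ (B : Matrix (Fin n) (Fin n) ℝ) (M : Matrix (Fin n) (Fin n) ℤ),
      A = B * M.map (fun z : ℤ => (z : ℝ)) ∧ minSq B = minSq A ∧
      δ / 4 ≤ |(M.det : ℝ)| * covered A ((1 + δ) * √(minSq A)) := by
  have hm := minSq_pos hn hA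
  set r := √(minSq A) with hr
  have hr0 : 0 < r := Real.sqrt_pos.2 hm
  obtain ⟨H, hH, hmax⟩ := exists_max A hr0
  obtain ⟨P, M, hP, hPM, hdet⟩ := exists_matrix H hH.fin
  have hdetP : P.det ≠ 0 := by
    intro h0
    have := congrArg Matrix.det hPM
    rw [Matrix.det_mul, h0, zero_mul, Matrix.det_one] at this
    exact zero_ne_one this
  refine ⟨A * P, M, by rw [Matrix.mul_assoc, hPM, Matrix.mul_one], ?_, ?_⟩
  · apply le_antisymm
    · apply le_minSq hn
      intro w hw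
      have h1 : (Matrix.mulVec A fun j => (w j : ℝ)) =
          Matrix.mulVec (A * P) (fun j => ((M.mulVec w) j : ℝ)) := by
        have h2 : (fun j => ((M.mulVec w) j : ℝ)) =
            (M.map (fun z : ℤ => (z : ℝ))).mulVec (fun j => (w j : ℝ)) := by
          ext j
          simp [Matrix.mulVec, dotProduct]
        rw [h2, Matrix.mulVec_mulVec, Matrix.mul_assoc, hPM, Matrix.mul_one]
      rw [h1]
      apply minSq_le
      intro h0
      rw [h0] at h1
      have h3 : (fun j => ((0 : Fin n → ℤ) j : ℝ)) = 0 := by ext j; simp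
      rw [h3, Matrix.mulVec_zero] at h1
      have h4 := Matrix.eq_zero_of_mulVec_eq_zero hA h1
      apply hw
      ext j
      have := congrFun h4 j
      simpa using this
    · apply le_minSq hn
      intro w hw
      rw [← Matrix.mulVec_mulVec]
      set t := P.mulVec (fun j => (w j : ℝ)) with ht
      have ht0 : t ≠ 0 := by
        intro h0
        have h4 := Matrix.eq_zero_of_mulVec_eq_zero hdetP h0
        apply hw
        ext j
        have := congrFun h4 j
        simpa using this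
      by_cases hz : pr t = 0
      · obtain ⟨z, hz⟩ := (pr_eq_zero_iff t).1 hz
        have e : t = fun j => (z j : ℝ) := funext hz
        rw [e]
        apply minSq_le
        rintro rfl
        apply ht0
        rw [e]; ext j; simp
      · have h5 : pr t ∈ H := hP w
        have h6 : ¬ N A t < r := fun hlt => hz (hH.sep _ h5 ⟨t, rfl, hlt⟩)
        rw [not_lt] at h6
        rw [← N_sq]
        calc minSq A = r ^ 2 := (Real.sq_sqrt hm.le).symm
          _ ≤ N A t ^ 2 := pow_le_pow_left₀ hr0.le h6 2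
  · have h2δ : 2 ≤ ⌊2 / δ⌋₊ := by
      apply Nat.le_floor
      rw [le_div_iff₀ hδ]
      push_cast
      linarith
    obtain ⟨p, hp, hlt, hle⟩ := Nat.exists_prime_lt_and_le_two_mul ⌊2 / δ⌋₊ (by omega)
    have hpδ : 2 < p * δ := by
      have h1 : 2 / δ < (⌊2 / δ⌋₊ : ℝ) + 1 := Nat.lt_floor_add_one _
      have h2 : (⌊2 / δ⌋₊ : ℝ) + 1 ≤ p := by exact_mod_cast hlt
      rw [← div_lt_iff₀ hδ]
      linarith
    have hmain := main_torus hr0 hH hmax (δ := δ) hδ hp hpδ
    rw [covered_eq, ← hdet] at hmain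
    have h3 : (1 : ℝ) ≤ ((p - 1 : ℕ) : ℝ) * (M.det.natAbs : ℝ) * covered A ((1 + δ) * r) := by
      have := ENNReal.toReal_mono (by
        exact ENNReal.mul_ne_top (ENNReal.mul_ne_top (ENNReal.natCast_ne_top _)
          (ENNReal.natCast_ne_top _)) ENNReal.ofReal_ne_top) hmain
      rw [ENNReal.toReal_mul, ENNReal.toReal_mul, ENNReal.toReal_natCast, ENNReal.toReal_natCast,
        ENNReal.toReal_ofReal (covered_nonneg _ _), ENNReal.toReal_one] at this
      exact this
    have h4 : ((p - 1 : ℕ) : ℝ) ≤ 4 / δ := by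
      have h5 : ((p - 1 : ℕ) : ℝ) ≤ 2 * (⌊2 / δ⌋₊ : ℝ) := by
        have : p - 1 ≤ 2 * ⌊2 / δ⌋₊ := by omega
        exact_mod_cast this
      have h6 : (⌊2 / δ⌋₊ : ℝ) ≤ 2 / δ := Nat.floor_le (by positivity)
      calc ((p - 1 : ℕ) : ℝ) ≤ 2 * (⌊2 / δ⌋₊ : ℝ) := h5
        _ ≤ 2 * (2 / δ) := by linarith
        _ = 4 / δ := by ring
    have h7 : (M.det.natAbs : ℝ) = |(M.det : ℝ)| := by
      rw [Nat.cast_natAbs, Int.cast_abs]
    rw [h7] at h3
    have h8 : 0 ≤ |(M.det : ℝ)| * covered A ((1 + δ) * r) :=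
      mul_nonneg (abs_nonneg _) (covered_nonneg _ _)
    have h9 : 1 ≤ 4 / δ * (|(M.det : ℝ)| * covered A ((1 + δ) * r)) := by
      calc (1 : ℝ) ≤ ((p - 1 : ℕ) : ℝ) * (|(M.det : ℝ)| * covered A ((1 + δ) * r)) := by
            rw [← mul_assoc]; exact h3
        _ ≤ _ := mul_le_mul_of_nonneg_right h4 h8
    rw [div_mul_eq_mul_div, le_div_iff₀ hδ] at h9
    linarith

/-- the covered fraction of a lattice whose Hermite invariant is comparable with `γ_n` -/
theorem coverage (hn : 0 < n) {A : Matrix (Fin n) (Fin n) ℝ} (hA : A.det ≠ 0) {δ : ℝ}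
    (hδ : 0 < δ) (hδ1 : δ ≤ 1) :
    δ / 4 * gam A ^ ((n : ℝ) / 2) ≤
      covered A ((1 + δ) * √(minSq A)) * hermite n ^ ((n : ℝ) / 2) := by
  obtain ⟨B, M, hAB, hmin, hM⟩ := superlattice hn hA hδ hδ1
  have hn0 : (0 : ℝ) < n := by exact_mod_cast hn
  set κ := covered A ((1 + δ) * √(minSq A)) with hκ
  have hκ0 : 0 ≤ κ := covered_nonneg _ _
  have hdet : A.det = B.det * (M.det : ℝ) := by
    have h1 : (M.map (fun z : ℤ => (z : ℝ))).det = (M.det : ℝ) := by
      have := (Int.castRingHom ℝ).map_det M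
      simpa using this.symm
    rw [hAB, Matrix.det_mul, h1]
  have hB : B.det ≠ 0 := fun h => hA (by rw [hdet, h, zero_mul])
  have hM0 : (M.det : ℝ) ≠ 0 := fun h => hA (by rw [hdet, h, mul_zero])
  have hBpos : 0 < |B.det| := abs_pos.2 hB
  have hMpos : 0 < |(M.det : ℝ)| := abs_pos.2 hM0
  have hm := minSq_pos hn hA
  have h1 := le_hermite hn B hB
  rw [hmin] at h1
  have hexp : (2 : ℝ) / n * (n / 2) = 1 := by field_simp
  have key : ∀ d : ℝ, 0 < d → (minSq A / d ^ ((2 : ℝ) / n)) ^ ((n : ℝ) / 2) =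
      minSq A ^ ((n : ℝ) / 2) / d := by
    intro d hd
    rw [Real.div_rpow hm.le (by positivity), ← Real.rpow_mul hd.le, hexp, Real.rpow_one]
  have h2 : minSq A ^ ((n : ℝ) / 2) / |B.det| ≤ hermite n ^ ((n : ℝ) / 2) := by
    rw [← key _ hBpos]
    exact Real.rpow_le_rpow (by positivity) h1 (by positivity)
  have h3 : gam A ^ ((n : ℝ) / 2) = minSq A ^ ((n : ℝ) / 2) / |B.det| / |(M.det : ℝ)| := by
    unfold gam
    rw [key _ (abs_pos.2 hA), hdet, abs_mul, div_div]
  rw [h3]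
  set X := minSq A ^ ((n : ℝ) / 2) / |B.det| with hX
  have hX0 : 0 ≤ X := by positivity
  calc δ / 4 * (X / |(M.det : ℝ)|) ≤ (|(M.det : ℝ)| * κ) * (X / |(M.det : ℝ)|) :=
        mul_le_mul_of_nonneg_right hM (by positivity)
    _ = κ * X := by field_simp
    _ ≤ κ * hermite n ^ ((n : ℝ) / 2) := mul_le_mul_of_nonneg_left h2 hκ0

end

end Run7.h748.Cov
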