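import Mathlib

set_option autoImplicit false

/-!
# Finite subgroups of the torus which avoid a ball

`T = ℝⁿ / ℤⁿ` with the distance given by an invertible matrix `A`. `U A ρ` is the open ball of
radius `ρ` about `0`.
-/

open MeasureTheory Set
open scoped ENNReal

namespace Run7.h748.Cov

noncomputable section

variable {n : ℕ}

/-- the Euclidean norm of `A t` -/
def N (A : Matrix (Fin n) (Fin n) ℝ) (t : Fin n → ℝ) : ℝ :=
  ‖(WithLp.toLp 2 (A.mulVec t) : EuclideanSpace ℝ (Fin n))‖

theorem N_add (A : Matrix (Fin n) (Fin n) ℝ) (s t : Fin n → ℝ) : N A (s + t) ≤ N A s + N A t := by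
  unfold N
  rw [Matrix.mulVec_add, WithLp.toLp_add]
  exact norm_add_le _ _

theorem N_smul (A : Matrix (Fin n) (Fin n) ℝ) (c : ℝ) (t : Fin n → ℝ) :
    N A (c • t) = |c| * N A t := by
  unfold N
  rw [Matrix.mulVec_smul, WithLp.toLp_smul, norm_smul, Real.norm_eq_abs]

theorem N_neg (A : Matrix (Fin n) (Fin n) ℝ) (t : Fin n → ℝ) : N A (-t) = N A t := by
  have := N_smul A (-1) t
  simpa using this

theorem N_zero (A : Matrix (Fin n) (Fin n) ℝ) : N A 0 = 0 := by
  unfold N
  rw [Matrix.mulVec_zero]; simp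

theorem N_nonneg (A : Matrix (Fin n) (Fin n) ℝ) (t : Fin n → ℝ) : 0 ≤ N A t := norm_nonneg _

theorem N_sq (A : Matrix (Fin n) (Fin n) ℝ) (t : Fin n → ℝ) :
    N A t ^ 2 = ∑ i, (A.mulVec t) i ^ 2 := by
  unfold N
  rw [EuclideanSpace.norm_sq_eq]
  simp

theorem N_cont (A : Matrix (Fin n) (Fin n) ℝ) : Continuous (N A) := by
  unfold N
  have : Continuous fun t : Fin n → ℝ => A.mulVec t := by fun_prop
  exact ((PiLp.continuous_toLp 2 _).comp this).norm

/-- the projection onto the torus -/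
def pr (t : Fin n → ℝ) : Fin n → UnitAddCircle := fun i => (t i : UnitAddCircle)

theorem pr_add (s t : Fin n → ℝ) : pr (s + t) = pr s + pr t := by
  ext i; simp [pr]

theorem pr_neg (t : Fin n → ℝ) : pr (-t) = -pr t := by
  ext i; simp [pr]

theorem pr_sub (s t : Fin n → ℝ) : pr (s - t) = pr s - pr t := by
  ext i; simp [pr]

theorem pr_zero : pr (0 : Fin n → ℝ) = 0 := by
  ext i; simp [pr]

theorem pr_nsmul (k : ℕ) (t : Fin n → ℝ) : pr ((k : ℝ) • t) = k • pr t := by
  ext i
  simp only [pr, Pi.smul_apply, smul_eq_mul]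
  rw [← nsmul_eq_mul]
  rfl

theorem pr_surj (x : Fin n → UnitAddCircle) : ∃ t, pr t = x := by
  choose t ht using fun i => QuotientAddGroup.mk_surjective (x i)
  exact ⟨t, funext ht⟩

theorem pr_open : IsOpenMap (pr : (Fin n → ℝ) → Fin n → UnitAddCircle) := by
  have := IsOpenMap.piMap (f := fun (_ : Fin n) (s : ℝ) => (s : UnitAddCircle))
    (fun _ => QuotientAddGroup.isOpenMap_coe) (by simp)
  exact this

theorem pr_cont : Continuous (pr : (Fin n → ℝ) → Fin n → UnitAddCircle) := by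
  unfold pr
  exact continuous_pi fun i => (AddCircle.continuous_mk' 1).comp (continuous_apply i)

/-- the ball about `0` -/
def U (A : Matrix (Fin n) (Fin n) ℝ) (ρ : ℝ) : Set (Fin n → UnitAddCircle) :=
  {x | ∃ t, pr t = x ∧ N A t < ρ}

theorem U_open (A : Matrix (Fin n) (Fin n) ℝ) (ρ : ℝ) : IsOpen (U A ρ) := by
  have : U A ρ = pr '' {t | N A t < ρ} := by
    ext x; constructor
    · rintro ⟨t, h1, h2⟩; exact ⟨t, h2, h1⟩
    · rintro ⟨t, h1, h2⟩; exact ⟨t, h2, h1⟩
  rw [this]
  exact pr_open _ (isOpen_lt (N_cont A) continuous_const)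

theorem zero_mem_U (A : Matrix (Fin n) (Fin n) ℝ) {ρ : ℝ} (h : 0 < ρ) : (0 : Fin n → UnitAddCircle) ∈ U A ρ :=
  ⟨0, pr_zero, by rw [N_zero]; exact h⟩

theorem add_mem_U (A : Matrix (Fin n) (Fin n) ℝ) {ρ σ : ℝ} {x y : Fin n → UnitAddCircle}
    (hx : x ∈ U A ρ) (hy : y ∈ U A σ) : x + y ∈ U A (ρ + σ) := by
  obtain ⟨s, rfl, hs⟩ := hx
  obtain ⟨t, rfl, ht⟩ := hy
  exact ⟨s + t, pr_add s t, (N_add A s t).trans_lt (add_lt_add hs ht)⟩

theorem neg_mem_U (A : Matrix (Fin n) (Fin n) ℝ) {ρ : ℝ} {x : Fin n → UnitAddCircle}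
    (hx : x ∈ U A ρ) : -x ∈ U A ρ := by
  obtain ⟨s, rfl, hs⟩ := hx
  exact ⟨-s, pr_neg s, by rw [N_neg]; exact hs⟩

theorem vol_univ : volume (Set.univ : Set (Fin n → UnitAddCircle)) = 1 := by
  rw [volume_pi, Measure.pi_univ]
  simp

/-- finite subgroups which meet the ball of radius `r` only in `0` -/
structure Good (A : Matrix (Fin n) (Fin n) ℝ) (r : ℝ) (H : AddSubgroup (Fin n → UnitAddCircle)) :
    Prop where
  fin : (H : Set (Fin n → UnitAddCircle)).Finite
  sep : ∀ h ∈ H, h ∈ U A r → h = 0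

theorem card_bound {A : Matrix (Fin n) (Fin n) ℝ} {r : ℝ}
    {H : AddSubgroup (Fin n → UnitAddCircle)} (hH : Good A r H) :
    (Nat.card H : ℝ≥0∞) * volume (U A (r / 2)) ≤ 1 := by
  classical
  set F := hH.fin.toFinset with hF
  have hcard : Nat.card H = F.card := by
    have : Nat.card (H : Set (Fin n → UnitAddCircle)) = F.card := by
      rw [hF, ← Set.ncard_eq_toFinset_card _ hH.fin]; rfl
    exact this
  have hdisj : (F : Set (Fin n → UnitAddCircle)).PairwiseDisjoint
      (fun h => (fun x => -h + x) ⁻¹' U A (r / 2)) := by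
    intro h hh h' hh' hne
    rw [Function.onFun, Set.disjoint_left]
    intro x hx hx'
    apply hne
    have h1 : (-h' + x) + -(-h + x) ∈ U A (r / 2 + r / 2) := add_mem_U A hx' (neg_mem_U A hx)
    have h2 : (-h' + x) + -(-h + x) = h - h' := by abel
    rw [h2, add_halves] at h1
    have h3 : h ∈ H := by simpa [hF] using hh
    have h4 : h' ∈ H := by simpa [hF] using hh'
    exact sub_eq_zero.1 (hH.sep _ (H.sub_mem h3 h4) h1)
  have hmeas : ∀ h ∈ F, MeasurableSet ((fun x => -h + x) ⁻¹' U A (r / 2)) := by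
    intro h _
    exact (measurable_const_add (-h)) (U_open A _).measurableSet
  have h5 := measure_biUnion_finset (μ := (volume : Measure (Fin n → UnitAddCircle))) hdisj hmeas
  have h6 : ∀ h ∈ F, volume ((fun x => -h + x) ⁻¹' U A (r / 2)) = volume (U A (r / 2)) :=
    fun h _ => measure_preimage_add _ _ _
  rw [Finset.sum_congr rfl h6, Finset.sum_const, nsmul_eq_mul] at h5
  rw [hcard, ← h5]
  exact (measure_mono (Set.subset_univ _)).trans vol_univ.le

theorem exists_max (A : Matrix (Fin n) (Fin n) ℝ) {r : ℝ} (hr : 0 < r) :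
    ∃ H : AddSubgroup (Fin n → UnitAddCircle), Good A r H ∧
      ∀ H', Good A r H' → Nat.card H' ≤ Nat.card H := by
  have hv : volume (U A (r / 2)) ≠ 0 :=
    ((U_open A _).measure_pos _ ⟨0, zero_mem_U A (half_pos hr)⟩).ne'
  have hvt : volume (U A (r / 2)) ≠ ⊤ := measure_ne_top _ _
  set S : Set ℕ := {k | ∃ H : AddSubgroup (Fin n → UnitAddCircle), Good A r H ∧ Nat.card H = k}
    with hS
  have hne : S.Nonempty := by
    refine ⟨_, ⊥, ⟨by simp, ?_⟩, rfl⟩
    intro h hh _
    simpa using hh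
  have hbdd : BddAbove S := by
    refine ⟨⌈(volume (U A (r / 2))).toReal⁻¹⌉₊, ?_⟩
    rintro k ⟨H, hH, rfl⟩
    have h1 := card_bound hH
    have h2 : (Nat.card H : ℝ) * (volume (U A (r / 2))).toReal ≤ 1 := by
      have := ENNReal.toReal_mono ENNReal.one_ne_top h1
      simpa using this
    have h3 : 0 < (volume (U A (r / 2))).toReal := ENNReal.toReal_pos hv hvt
    have h4 : (Nat.card H : ℝ) ≤ (volume (U A (r / 2))).toReal⁻¹ := by
      rw [le_inv_comm₀ (by
        have : 0 < Nat.card H := by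
          have := hH.fin.to_subtype
          have : Finite H := this
          exact Nat.card_pos
        exact_mod_cast this) h3]
      rw [inv_eq_one_div, le_div_iff₀ (by
        have : 0 < Nat.card H := by
          have := hH.fin.to_subtype
          have : Finite H := this
          exact Nat.card_pos
        exact_mod_cast this)]
      linarith
    exact_mod_cast h4.trans (Nat.le_ceil _)
  obtain ⟨H, hH, hk⟩ := Nat.sSup_mem hne hbdd
  refine ⟨H, hH, fun H' hH' => ?_⟩
  rw [hk]
  exact le_csSup hbdd ⟨H', hH', rfl⟩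

/-- a subgroup of maximal order cannot be extended -/
theorem ext {A : Matrix (Fin n) (Fin n) ℝ} {r : ℝ} (hr : 0 < r)
    {H : AddSubgroup (Fin n → UnitAddCircle)} (hH : Good A r H)
    (hmax : ∀ H', Good A r H' → Nat.card H' ≤ Nat.card H) {p : ℕ} (hp : 2 ≤ p)
    {x : Fin n → UnitAddCircle} (hx : p • x ∈ H) :
    ∃ j : ℕ, 1 ≤ j ∧ j < p ∧ ∃ h ∈ H, j • x + h ∈ U A r := by
  by_cases hxH : x ∈ H
  · exact ⟨1, le_rfl, by omega, -x, H.neg_mem hxH, by
      rw [one_smul, add_neg_cancel]; exact zero_mem_U A hr⟩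
  · set H' := H ⊔ AddSubgroup.zmultiples x with hH'
    have hform : ∀ y ∈ H', ∃ j : ℕ, j < p ∧ ∃ h ∈ H, j • x + h = y := by
      intro y hy
      rw [hH', AddSubgroup.mem_sup] at hy
      obtain ⟨h, hh, z, hz, rfl⟩ := hy
      obtain ⟨k, rfl⟩ := AddSubgroup.mem_zmultiples_iff.1 hz
      have hp0 : (p : ℤ) ≠ 0 := by positivity
      refine ⟨(k % p).toNat, ?_, h + (k / p) • (p • x), ?_, ?_⟩
      · have := Int.emod_lt_of_pos k (by positivity : (0 : ℤ) < p)
        have h0 := Int.emod_nonneg k hp0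
        omega
      · exact H.add_mem hh (H.zsmul_mem hx _)
      · have h0 := Int.emod_nonneg k hp0
        have h1 : ((k % p).toNat : ℤ) = k % p := Int.toNat_of_nonneg h0
        have h2 : (k % p).toNat • x = (k % p) • x := by
          rw [← natCast_zsmul, h1]
        have h3 : (k / p) • (p • x) = ((k / p) * p) • x := by
          rw [mul_smul, natCast_zsmul]
        have h4 : k • x = (k % p) • x + ((k / p) * p) • x := by
          rw [← add_smul]
          congr 1
          have := Int.emod_add_mul_ediv k p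
          linarith
        rw [h2, h3, h4]
        abel
    have hfin : (H' : Set (Fin n → UnitAddCircle)).Finite := by
      have h1 : ((fun q : ℕ × (Fin n → UnitAddCircle) => q.1 • x + q.2) ''
          (Set.Iio p ×ˢ (H : Set (Fin n → UnitAddCircle)))).Finite :=
        ((Set.finite_Iio p).prod hH.fin).image _
      apply h1.subset
      intro y hy
      obtain ⟨j, hj, h, hh, rfl⟩ := hform y hy
      exact ⟨(j, h), ⟨hj, hh⟩, rfl⟩
    have hlt : H < H' := by
      refine lt_of_le_of_ne le_sup_left ?_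
      intro he
      apply hxH
      rw [he]
      exact (le_sup_right : AddSubgroup.zmultiples x ≤ H') (AddSubgroup.mem_zmultiples x)
    have hcard : Nat.card H < Nat.card H' := by
      have h1 : (H : Set (Fin n → UnitAddCircle)) ⊂ H' := hlt
      exact Set.ncard_lt_ncard h1 hfin
    have hbad : ¬ Good A r H' := fun hg => absurd (hmax _ hg) (not_le.2 hcard)
    have h2 : ∃ y ∈ H', y ∈ U A r ∧ y ≠ 0 := by
      by_contra hc
      push Not at hc
      exact hbad ⟨hfin, hc⟩
    obtain ⟨y, hy, hyU, hy0⟩ := h2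
    obtain ⟨j, hj, h, hh, rfl⟩ := hform y hy
    refine ⟨j, ?_, hj, h, hh, hyU⟩
    by_contra hj0
    have : j = 0 := by omega
    subst this
    rw [zero_smul, zero_add] at hyU hy0
    exact hy0 (hH.sep h hh hyU)

/-- bound for the distance to `ℤⁿ` -/
theorem exists_D (A : Matrix (Fin n) (Fin n) ℝ) :
    ∃ D : ℝ, 0 < D ∧ ∀ t : Fin n → ℝ, ∃ l : Fin n → ℝ, pr l = 0 ∧ N A (t - l) ≤ D := by
  have hc : IsCompact (Set.pi Set.univ fun _ : Fin n => Set.Icc (0 : ℝ) 1) :=
    isCompact_univ_pi fun _ => isCompact_Icc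
  obtain ⟨D, hD⟩ := hc.exists_bound_of_continuousOn (f := N A) (N_cont A).continuousOn
  refine ⟨max D 1, by positivity, fun t => ⟨fun i => (⌊t i⌋ : ℝ), ?_, ?_⟩⟩
  · ext i
    simp only [pr, Pi.zero_apply]
    have : ((⌊t i⌋ : ℝ) : UnitAddCircle) = 0 := by
      rw [AddCircle.coe_eq_zero_iff]
      exact ⟨⌊t i⌋, by simp⟩
    exact this
  · refine le_trans ?_ (le_max_left _ _)
    have := hD (t - fun i => (⌊t i⌋ : ℝ)) (by
      intro i _
      simp only [Pi.sub_apply, Set.mem_Icc]
      exact ⟨by linarith [Int.floor_le (t i)], by linarith [Int.lt_floor_add_one (t i)]⟩)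
    rwa [Real.norm_eq_abs, abs_of_nonneg (N_nonneg _ _)] at this

/-- the covering radius is at most `2 r` -/
theorem cover {A : Matrix (Fin n) (Fin n) ℝ} {r : ℝ} (hr : 0 < r)
    {H : AddSubgroup (Fin n → UnitAddCircle)} (hH : Good A r H)
    (hmax : ∀ H', Good A r H' → Nat.card H' ≤ Nat.card H) {ε : ℝ} (hε : 0 < ε) (t : Fin n → ℝ) :
    ∃ l : Fin n → ℝ, pr l ∈ H ∧ N A (t - l) < 2 * r + ε := by
  obtain ⟨D, hD0, hD⟩ := exists_D A
  have key : ∀ k : ℕ, ∀ t : Fin n → ℝ, ∃ l : Fin n → ℝ, pr l ∈ H ∧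
      N A (t - l) ≤ D / 2 ^ k + 2 * r := by
    intro k
    induction k with
    | zero =>
      intro t
      obtain ⟨l, h1, h2⟩ := hD t
      exact ⟨l, by rw [h1]; exact H.zero_mem, by simp; linarith⟩
    | succ k ih =>
      intro t
      obtain ⟨l, h1, h2⟩ := ih ((2 : ℝ) • t)
      have h3 : (2 : ℕ) • pr ((1 / 2 : ℝ) • l) ∈ H := by
        rw [← pr_nsmul, smul_smul]
        norm_num
        exact h1
      obtain ⟨j, hj1, hj2, h, hh, u, hu, huN⟩ := ext hr hH hmax le_rfl h3
      have hj : j = 1 := by omega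
      subst hj
      rw [one_smul] at hu
      refine ⟨(1 / 2 : ℝ) • l - u, ?_, ?_⟩
      · rw [pr_sub, hu, sub_add_cancel_left]
        exact H.neg_mem hh
      · have e1 : t - ((1 / 2 : ℝ) • l - u) = (1 / 2 : ℝ) • ((2 : ℝ) • t - l) + u := by
          rw [smul_sub, smul_smul]; norm_num; abel
        rw [e1]
        have h4 := N_add A ((1 / 2 : ℝ) • ((2 : ℝ) • t - l)) u
        rw [N_smul, abs_of_pos (by norm_num : (0 : ℝ) < 1 / 2)] at h4
        have h5 : D / 2 ^ (k + 1) = D / 2 ^ k / 2 := by rw [pow_succ]; field_simp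
        rw [h5]
        linarith
  obtain ⟨k, hk⟩ : ∃ k : ℕ, D / 2 ^ k < ε := by
    obtain ⟨k, hk⟩ := exists_pow_lt_of_lt_one (div_pos hε hD0) (by norm_num : (1 / 2 : ℝ) < 1)
    refine ⟨k, ?_⟩
    rw [lt_div_iff₀ hD0] at hk
    rw [div_lt_iff₀ (by positivity)]
    have e : (1 / 2 : ℝ) ^ k * 2 ^ k = 1 := by rw [← mul_pow]; norm_num
    have h2 : (0 : ℝ) < 2 ^ k := by positivity
    nlinarith
  obtain ⟨l, h1, h2⟩ := key k t
  exact ⟨l, h1, by linarith⟩

/-- the points whose multiple lies in `H` are finitely many -/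
theorem fin_K {H : AddSubgroup (Fin n → UnitAddCircle)}
    (hH : (H : Set (Fin n → UnitAddCircle)).Finite) {p : ℕ} (hp : 0 < p) :
    {x : Fin n → UnitAddCircle | p • x ∈ H}.Finite := by
  have hker : {x : Fin n → UnitAddCircle | p • x = 0}.Finite := by
    have h1 : (Set.pi Set.univ fun _ : Fin n => {u : UnitAddCircle | p • u = 0}).Finite :=
      Set.Finite.pi fun _ => AddCircle.finite_torsion 1 hp
    apply h1.subset
    intro x hx i _
    exact congrFun hx i
  apply Set.Finite.preimage' (f := fun x : Fin n → UnitAddCircle => p • x) hH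
  intro b _
  by_cases hb : ∃ x0 : Fin n → UnitAddCircle, p • x0 = b
  · obtain ⟨x0, rfl⟩ := hb
    apply (hker.image (fun k => x0 + k)).subset
    intro x hx
    refine ⟨x - x0, ?_, by simp⟩
    simp only [Set.mem_ofPred_eq, smul_sub, sub_eq_zero]
    exact hx
  · convert Set.finite_empty
    ext x
    simp only [Set.mem_preimage, Set.mem_singleton_iff, Set.mem_empty_iff_false, iff_false]
    exact fun h => hb ⟨x, h⟩

/-- the balls of radius `(1 + δ) r` about a subgroup of maximal order cover a substantial part -/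
theorem main_torus {A : Matrix (Fin n) (Fin n) ℝ} {r : ℝ} (hr : 0 < r)
    {H : AddSubgroup (Fin n → UnitAddCircle)} (hH : Good A r H)
    (hmax : ∀ H', Good A r H' → Nat.card H' ≤ Nat.card H) {δ : ℝ} (hδ : 0 < δ) {p : ℕ}
    (hp : p.Prime) (hpδ : 2 < p * δ) :
    1 ≤ ((p - 1 : ℕ) : ℝ≥0∞) * Nat.card H * volume (U A ((1 + δ) * r)) := by
  classical
  set K := (fin_K hH.fin hp.pos).toFinset with hK
  have mK : ∀ x, x ∈ K ↔ p • x ∈ H := by intro x; simp [hK]
  set Y := K.filter (fun y => y ∈ U A r) with hY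
  set F := hH.fin.toFinset with hF
  have mF : ∀ x, x ∈ F ↔ x ∈ H := by intro x; simp [hF]
  have hcard : Nat.card H = F.card := by
    have : Nat.card (H : Set (Fin n → UnitAddCircle)) = F.card := by
      rw [hF, ← Set.ncard_eq_toFinset_card _ hH.fin]; rfl
    exact this
  -- inverses mod p
  have hinv : ∀ j : ℕ, 1 ≤ j → j < p → ∃ c l : ℕ, c * j = 1 + p * l := by
    intro j h1 h2
    have hco : Nat.Coprime j p := (Nat.coprime_of_lt_prime (by omega) h2 hp).symm
    obtain ⟨c, -, hc⟩ := Nat.exists_mul_mod_eq_one_of_coprime hco hp.one_lt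
    refine ⟨c, j * c / p, ?_⟩
    have := Nat.mod_add_div (j * c) p
    rw [hc] at this
    rw [mul_comm c j]
    exact this.symm
  choose! c l hcl using hinv
  have hKle : K.card ≤ (p - 1) * (Y.card * F.card) := by
    have hsub : K ⊆ ((Finset.Ico 1 p) ×ˢ (Y ×ˢ F)).image
        (fun q : ℕ × ((Fin n → UnitAddCircle) × (Fin n → UnitAddCircle)) =>
          c q.1 • q.2.1 + q.2.2) := by
      intro x hx
      rw [mK] at hx
      obtain ⟨j, h1, h2, h, hh, hU⟩ := ext hr hH hmax hp.two_le hx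
      rw [Finset.mem_image]
      refine ⟨(j, (j • x + h, -(l j • (p • x) + c j • h))), ?_, ?_⟩
      · simp only [Finset.mem_product, Finset.mem_Ico]
        refine ⟨⟨h1, h2⟩, ?_, ?_⟩
        · rw [hY, Finset.mem_filter, mK]
          refine ⟨?_, hU⟩
          rw [smul_add, smul_comm]
          exact H.add_mem (H.nsmul_mem hx _) (H.nsmul_mem hh _)
        · rw [mF]
          exact H.neg_mem (H.add_mem (H.nsmul_mem hx _) (H.nsmul_mem hh _))
      · simp only
        rw [smul_add, smul_smul, hcl j h1 h2, add_smul, one_smul, mul_comm p, mul_smul]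
        abel
    calc K.card ≤ _ := Finset.card_le_card hsub
      _ ≤ _ := Finset.card_image_le
      _ = (p - 1) * (Y.card * F.card) := by
          rw [Finset.card_product, Finset.card_product, Nat.card_Ico]
  have hYpos : 0 < Y.card := by
    apply Finset.card_pos.2
    refine ⟨0, ?_⟩
    rw [hY, Finset.mem_filter, mK, smul_zero]
    exact ⟨H.zero_mem, zero_mem_U A hr⟩
  -- averaging
  have havg : (Y.card : ℝ≥0∞) ≤ K.card * volume (U A ((1 + δ) * r)) := by
    have hpt : ∀ z : Fin n → UnitAddCircle, (Y.card : ℝ≥0∞) ≤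
        ∑ y ∈ K, ((fun x => y + x) ⁻¹' U A ((1 + δ) * r)).indicator (fun _ => (1 : ℝ≥0∞)) z := by
      intro z
      obtain ⟨t, rfl⟩ := pr_surj z
      have hp0 : (0 : ℝ) < p := by exact_mod_cast hp.pos
      obtain ⟨l0, h1, h2⟩ := cover hr hH hmax (ε := (p * δ - 2) * r)
        (mul_pos (by linarith) hr) ((p : ℝ) • t)
      have e0 : (p : ℝ) • ((p : ℝ)⁻¹ • l0) = l0 := by
        rw [smul_smul, mul_inv_cancel₀ hp0.ne', one_smul]
      set k0 := pr ((p : ℝ)⁻¹ • l0) with hk0
      have hk0H : p • k0 ∈ H := by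
        rw [hk0, ← pr_nsmul, e0]; exact h1
      have hN : N A (t - (p : ℝ)⁻¹ • l0) < δ * r := by
        have e1 : (p : ℝ) • t - l0 = (p : ℝ) • (t - (p : ℝ)⁻¹ • l0) := by
          rw [smul_sub, e0]
        rw [e1, N_smul, abs_of_pos hp0] at h2
        have : (p : ℝ) * N A (t - (p : ℝ)⁻¹ • l0) < p * (δ * r) := by nlinarith
        exact lt_of_mul_lt_mul_left this hp0.le
      rw [← Finset.sum_filter_add_sum_filter_not K
        (fun y => y + pr t ∈ U A ((1 + δ) * r))]
      have h3 : Y.card ≤ (K.filter (fun y => y + pr t ∈ U A ((1 + δ) * r))).card := by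
        apply Finset.card_le_card_of_injOn (fun y => y - k0)
        · intro y hy
          rw [hY, Finset.mem_coe, Finset.mem_filter, mK] at hy
          simp only [Finset.coe_filter, Set.mem_ofPred_eq, mK]
          refine ⟨?_, ?_⟩
          · rw [smul_sub]; exact H.sub_mem hy.1 hk0H
          · obtain ⟨u, hu, huN⟩ := hy.2
            refine ⟨u + (t - (p : ℝ)⁻¹ • l0), ?_, ?_⟩
            · rw [pr_add, pr_sub, hu]; abel
            · have := N_add A u (t - (p : ℝ)⁻¹ • l0)
              nlinarith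
        · intro a _ b _ hab
          simpa using hab
      have h4 : ∑ y ∈ K.filter (fun y => y + pr t ∈ U A ((1 + δ) * r)),
          ((fun x => y + x) ⁻¹' U A ((1 + δ) * r)).indicator (fun _ => (1 : ℝ≥0∞)) (pr t) =
          ((K.filter (fun y => y + pr t ∈ U A ((1 + δ) * r))).card : ℝ≥0∞) := by
        rw [Finset.sum_congr rfl (g := fun _ => (1 : ℝ≥0∞))]
        · simp
        · intro y hy
          rw [Set.indicator_of_mem]
          exact (Finset.mem_filter.1 hy).2
      rw [h4]
      calc (Y.card : ℝ≥0∞) ≤ ((K.filter (fun y => y + pr t ∈ U A ((1 + δ) * r))).card : ℝ≥0∞) := by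
            exact_mod_cast h3
        _ ≤ _ := le_self_add
    have hmeas : ∀ y ∈ K, Measurable
        (((fun x => y + x) ⁻¹' U A ((1 + δ) * r)).indicator (fun _ => (1 : ℝ≥0∞))) := by
      intro y _
      exact measurable_const.indicator ((measurable_const_add y) (U_open A _).measurableSet)
    calc (Y.card : ℝ≥0∞) = ∫⁻ _ : Fin n → UnitAddCircle, (Y.card : ℝ≥0∞) := by
          rw [lintegral_const, vol_univ, mul_one]
      _ ≤ ∫⁻ z, ∑ y ∈ K, ((fun x => y + x) ⁻¹' U A ((1 + δ) * r)).indicator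
            (fun _ => (1 : ℝ≥0∞)) z := lintegral_mono hpt
      _ = ∑ y ∈ K, ∫⁻ z, ((fun x => y + x) ⁻¹' U A ((1 + δ) * r)).indicator
            (fun _ => (1 : ℝ≥0∞)) z := lintegral_finsetSum _ hmeas
      _ = ∑ y ∈ K, volume (U A ((1 + δ) * r)) := by
          refine Finset.sum_congr rfl fun y _ => ?_
          rw [lintegral_indicator ((measurable_const_add y) (U_open A _).measurableSet)]
          simp only [lintegral_const, one_mul, Measure.restrict_apply MeasurableSet.univ,
            Set.univ_inter]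
          exact measure_preimage_add _ _ _
      _ = _ := by rw [Finset.sum_const, nsmul_eq_mul]
  have h5 : (Y.card : ℝ≥0∞) * 1 ≤ Y.card * (((p - 1 : ℕ) : ℝ≥0∞) * F.card *
      volume (U A ((1 + δ) * r))) := by
    calc (Y.card : ℝ≥0∞) * 1 = Y.card := mul_one _
      _ ≤ K.card * volume (U A ((1 + δ) * r)) := havg
      _ ≤ (((p - 1) * (Y.card * F.card) : ℕ) : ℝ≥0∞) * volume (U A ((1 + δ) * r)) := by
          gcongr
      _ = _ := by push_cast; ring
  rw [hcard]
  have hY0 : (Y.card : ℝ≥0∞) ≠ 0 := by exact_mod_cast hYpos.ne'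
  exact (ENNReal.mul_le_mul_iff_right hY0 (ENNReal.natCast_ne_top _)).1 h5

end

end Run7.h748.Cov
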